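import Mathlib
import Pool.Agent.H238R2.HY.Struct

/-!
# The labelling from the types of the vertices and the blocks of the edges
-/

set_option autoImplicit false

namespace Pool.Agent.U122.HY

open Finset Pool.Agent.H238R2.HY

variable {V : Type} [Fintype V]

theorem circ_dist {N T g a p : ℕ} (hN : 0 < N) (hp : 1 ≤ p) (h1 : a + p ≤ g)
    (h2 : g + p ≤ N + a) :
    (p : ℤ) ≤ |(((T + g) % N : ℕ) : ℤ) - (((T + a) % N : ℕ) : ℤ)| ∧
      |(((T + g) % N : ℕ) : ℤ) - (((T + a) % N : ℕ) : ℤ)| ≤ (N : ℤ) - p := by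
  have e1 := Nat.div_add_mod (T + g) N
  have e2 := Nat.div_add_mod (T + a) N
  have b1 := Nat.mod_lt (T + g) hN
  have b2 := Nat.mod_lt (T + a) hN
  set r1 := (T + g) % N
  set r2 := (T + a) % N
  set q1 := (T + g) / N
  set q2 := (T + a) / N
  have hd : ((q1 : ℤ) - q2) * N = (g : ℤ) - a - (r1 - r2) := by
    have e1' : (N : ℤ) * q1 + r1 = T + g := by exact_mod_cast e1
    have e2' : (N : ℤ) * q2 + r2 = T + a := by exact_mod_cast e2
    linear_combination e1' - e2'
  have hNz : (0 : ℤ) < N := by exact_mod_cast hN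
  have b1' : (r1 : ℤ) < N := by exact_mod_cast b1
  have b2' : (r2 : ℤ) < N := by exact_mod_cast b2
  have c1 : (0 : ℤ) ≤ r1 := by positivity
  have c2 : (0 : ℤ) ≤ r2 := by positivity
  have h1' : (a : ℤ) + p ≤ g := by exact_mod_cast h1
  have h2' : (g : ℤ) + p ≤ N + a := by exact_mod_cast h2
  have hp' : (1 : ℤ) ≤ p := by exact_mod_cast hp
  have hk : (q1 : ℤ) - q2 = 0 ∨ (q1 : ℤ) - q2 = 1 := by
    have l1 : ((q1 : ℤ) - q2) * N < 2 * N := by linarith
    have l2 : (-1) * (N : ℤ) < ((q1 : ℤ) - q2) * N := by linarith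
    have m1 := lt_of_mul_lt_mul_right l1 hNz.le
    have m2 := lt_of_mul_lt_mul_right l2 hNz.le
    omega
  rcases hk with hk | hk
  · rw [hk, zero_mul] at hd
    have : (r1 : ℤ) - r2 = g - a := by linarith
    rw [this, abs_of_nonneg (by linarith)]
    constructor <;> linarith
  · rw [hk, one_mul] at hd
    have : (r1 : ℤ) - r2 = g - a - N := by linarith
    rw [this, abs_of_nonpos (by linarith)]
    constructor <;> linarith

/-- the edges in a block -/
def blkE (G : SimpleGraph V) {m : ℕ} (β : Sym2 V → Fin m) (i : Fin m) : SimpleGraph V where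
  Adj u v := G.Adj u v ∧ β s(u, v) = i
  symm := ⟨fun _ _ h => ⟨h.1.symm, by rw [Sym2.eq_swap]; exact h.2⟩⟩
  loopless := ⟨fun u h => G.loopless.irrefl u h.1⟩

theorem mul_mod_add {x m b c : ℕ} (hm : 0 < m) (hc : c < b) :
    (x % m) * b + c = (x * b + c) % (m * b) := by
  have h1 := Nat.div_add_mod x m
  have h2 := Nat.mod_lt x hm
  have h3 : (x % m) * b + b ≤ m * b := by
    have : (x % m + 1) * b ≤ m * b := Nat.mul_le_mul_right _ h2
    linarith [add_mul (x % m) 1 b]
  have h4 : x * b + c = ((x % m) * b + c) + (m * b) * (x / m) := by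
    conv_lhs => rw [← h1]
    ring
  have h5 : (x * b + c) % (m * b) = (x % m) * b + c := by
    rw [h4, Nat.add_mul_mod_self_left]
    exact Nat.mod_eq_of_lt (by omega)
  exact h5.symm

theorem build (G : SimpleGraph V) [DecidableRel G.Adj] (m L f g K b p : ℕ) [NeZero m]
    (hmdef : m = L + f) (hm : m = g * K) (hg : 1 ≤ g) (hb : 1 ≤ b) (hp : 1 ≤ p)
    (hC : (2 * g - 1) * b + 2 * p ≤ f * b + 2) (τ : V → Fin m)
    (hcls : ∀ v κ, ((G.neighborFinset v).filter (fun u => (τ u).val / g = κ)).card < g * b)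
    (β : Sym2 V → Fin m) (hβ : ∀ u v, G.Adj u v → (β s(u, v) - τ u).val < L)
    (hdeg : ∀ v i, ((G.neighborFinset v).filter (fun u => β s(v, u) = i)).card < b) :
    CircLab G p (m * b) := by
  classical
  have hm0 : 0 < m := Nat.pos_of_ne_zero (NeZero.ne m)
  set N := m * b with hN
  have hN0 : 0 < N := Nat.mul_pos hm0 hb
  -- the colourings inside the blocks
  have hblk : ∀ i : Fin m, ∃ c : V → V → ℕ, (∀ u v, c u v = c v u) ∧
      (∀ u v, (blkE G β i).Adj u v → c u v ≤ b - 1) ∧
      ∀ u v v', (blkE G β i).Adj u v → (blkE G β i).Adj u v' → v ≠ v' → c u v ≠ c u v' := by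
    intro i
    apply vizing
    intro v
    rw [← SimpleGraph.card_neighborFinset_eq_degree]
    have h1 := hdeg v i
    refine le_trans (Finset.card_le_card ?_) (Nat.le_sub_one_of_lt h1)
    intro u hu
    rw [SimpleGraph.mem_neighborFinset] at hu
    rw [mem_filter, SimpleGraph.mem_neighborFinset]
    exact hu
  choose c hc1 hc2 hc3 using hblk
  -- the colouring inside the classes
  obtain ⟨s, hs1, hs2⟩ := greedy (ins G (fun v => (τ v).val / g)) (g * b - 1) (by
    intro v
    rw [← SimpleGraph.card_neighborFinset_eq_degree]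
    refine le_trans (Finset.card_le_card ?_) (Nat.le_sub_one_of_lt (hcls v ((τ v).val / g)))
    intro u hu
    rw [SimpleGraph.mem_neighborFinset] at hu
    rw [mem_filter, SimpleGraph.mem_neighborFinset]
    exact ⟨hu.1, hu.2.symm⟩)
  have hgb : 1 ≤ g * b := Nat.one_le_iff_ne_zero.2 (by positivity)
  have hs1' : ∀ v, s v + 1 ≤ g * b := fun v => by have := hs1 v; omega
  set G0 := L * b + p - 1 + (g - 1) * b with hG0
  let eL : V → V → ℕ := fun u v => (β s(u, v)).val * b + c (β s(u, v)) u v
  have hsymm : ∀ u v, eL u v = eL v u := by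
    intro u v
    simp only [eL]
    rw [Sym2.eq_swap, hc1]
  let fV : V → ℕ := fun v => ((τ v).val / g * (g * b) + s v + G0) % N
  let fE : Sym2 V → ℕ := fun e => Sym2.lift ⟨eL, hsymm⟩ e
  have hfE : ∀ u v, fE s(u, v) = eL u v := fun u v => Sym2.lift_mk _ _ _
  have hclt : ∀ u v, G.Adj u v → c (β s(u, v)) u v < b := by
    intro u v huv
    have := hc2 (β s(u, v)) u v ⟨huv, rfl⟩
    omega
  have hκ : ∀ v, (τ v).val / g * (g * b) + g * b ≤ N := by
    intro v
    have h1 : (τ v).val / g < K := by
      rw [Nat.div_lt_iff_lt_mul (by omega)]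
      have := (τ v).isLt
      rw [mul_comm K g]
      omega
    have h2 : ((τ v).val / g + 1) * (g * b) ≤ K * (g * b) := Nat.mul_le_mul_right _ h1
    have h3 : K * (g * b) = N := by rw [hN, hm]; ring
    linarith [add_mul ((τ v).val / g) 1 (g * b)]
  refine ⟨fV, fE, ?_, ?_, ?_, ?_, ?_⟩
  · intro v; exact Nat.mod_lt _ hN0
  · intro e he
    induction e using Sym2.ind with
    | _ u v =>
      rw [hfE]
      have h1 := hclt u v he
      have h2 : ((β s(u, v)).val + 1) * b ≤ m * b := Nat.mul_le_mul_right _ (β s(u, v)).isLt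
      have h3 := add_mul (β s(u, v)).val 1 b
      simp only [eL]
      omega
  · intro u v huv h
    have h1 := hκ u
    have h2 := hκ v
    have h3 := hs1' u
    have h4 := hs1' v
    have h5 : (τ u).val / g * (g * b) + s u = (τ v).val / g * (g * b) + s v :=
      mod_cancel (by omega) (by omega) h
    have h6 : (τ u).val / g = (τ v).val / g := by
      have e1 : ((τ u).val / g * (g * b) + s u) / (g * b) = (τ u).val / g := by
        rw [add_comm, Nat.add_mul_div_right _ _ (by omega), Nat.div_eq_of_lt (by omega), zero_add]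
      have e2 : ((τ v).val / g * (g * b) + s v) / (g * b) = (τ v).val / g := by
        rw [add_comm, Nat.add_mul_div_right _ _ (by omega), Nat.div_eq_of_lt (by omega), zero_add]
      rw [← e1, ← e2, h5]
    have h7 : s u = s v := by rw [h6] at h5; omega
    exact hs2 u v ⟨huv, h6⟩ h7
  · intro u v v' huv huv' hne h
    rw [hfE, hfE] at h
    simp only [eL] at h
    have h1 := hclt u v huv
    have h2 := hclt u v' huv'
    have h6 : (β s(u, v)).val = (β s(u, v')).val := by
      have e1 : ((β s(u, v)).val * b + c (β s(u, v)) u v) / b = (β s(u, v)).val := by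
        rw [add_comm, Nat.add_mul_div_right _ _ (by omega), Nat.div_eq_of_lt h1, zero_add]
      have e2 : ((β s(u, v')).val * b + c (β s(u, v')) u v') / b = (β s(u, v')).val := by
        rw [add_comm, Nat.add_mul_div_right _ _ (by omega), Nat.div_eq_of_lt h2, zero_add]
      rw [← e1, ← e2, h]
    have h7 : β s(u, v) = β s(u, v') := Fin.ext h6
    rw [← h7] at h
    exact hc3 (β s(u, v)) u v v' ⟨huv, rfl⟩ ⟨huv', h7.symm⟩ hne (by omega)
  · intro u v huv
    rw [hfE]
    have h1 := hclt u v huv
    have h2 := hβ u v huv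
    set a0 := (β s(u, v) - τ u).val with ha0
    have h3 : (β s(u, v)).val = ((τ u).val + a0) % m := by
      have h4 : β s(u, v) = τ u + (β s(u, v) - τ u) := by abel
      conv_lhs => rw [h4]
      rw [Fin.val_add]
    have e1 : eL u v = ((τ u).val * b + (a0 * b + c (β s(u, v)) u v)) % N := by
      simp only [eL]
      rw [h3, mul_mod_add hm0 h1, hN]
      congr 1
      ring
    have hdm := Nat.div_add_mod (τ u).val g
    have hml := Nat.mod_lt (τ u).val (show 0 < g by omega)
    set κ := (τ u).val / g with hκdef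
    set r := (τ u).val % g with hr
    have hrb : r * b ≤ (g - 1) * b := Nat.mul_le_mul_right _ (by omega)
    have e2 : fV u = ((τ u).val * b + (G0 + s u - r * b)) % N := by
      simp only [fV]
      congr 1
      have h5 : (τ u).val * b = κ * (g * b) + r * b := by
        rw [← hdm]; ring
      rw [h5, ← hκdef]
      omega
    rw [e1, e2]
    have ha : a0 * b + b ≤ L * b := by
      have : (a0 + 1) * b ≤ L * b := Nat.mul_le_mul_right _ h2
      linarith [add_mul a0 1 b]
    have hNe : N = L * b + f * b := by rw [hN, hmdef]; ring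
    have h6 := hs1' u
    have hgg : (2 * g - 1) * b = (g - 1) * b + g * b := by
      rw [← add_mul]
      congr 1
      omega
    apply circ_dist hN0 hp
    · omega
    · omega

end Pool.Agent.U122.HY
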