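import Pool.Agent.U122.HY.Round

/-!
# Rounding of a fractional distribution of the edges of a graph to blocks

If every edge is distributed fractionally to blocks such that every vertex has load at most `w` in
every block, then every edge can choose one of its blocks such that the degrees inside the blocks
are less than `w + 4`.
-/

set_option autoImplicit false
set_option linter.unusedSectionVars false

namespace Pool.Agent.U122.HY

open Finset

variable {V : Type} [Fintype V] [DecidableEq V] {ι : Type} [Fintype ι] [DecidableEq ι]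

/-- the sets of the rounding problem -/
def SS : Sym2 V ⊕ (V × ι) → Finset (Sym2 V × ι)
  | Sum.inl e => {e} ×ˢ univ
  | Sum.inr p => (univ.filter (fun e => p.1 ∈ e)) ×ˢ {p.2}

/-- the thresholds -/
def th : Sym2 V ⊕ (V × ι) → ℕ
  | Sum.inl _ => 2
  | Sum.inr _ => 5

/-- the weights -/
def gg : Sym2 V ⊕ (V × ι) → ℕ
  | Sum.inl _ => 5
  | Sum.inr _ => 2

theorem mem_inl (a : Sym2 V × ι) (e : Sym2 V) :
    a ∈ SS (Sum.inl e : Sym2 V ⊕ (V × ι)) ↔ a.1 = e := by
  simp only [SS]
  rw [mem_product, mem_singleton]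
  simp

theorem mem_inr (a : Sym2 V × ι) (v : V) (i : ι) :
    a ∈ SS (Sum.inr (v, i) : Sym2 V ⊕ (V × ι)) ↔ v ∈ a.1 ∧ a.2 = i := by
  simp only [SS]
  rw [mem_product, mem_singleton, mem_filter]
  simp

theorem sum_gg (a : Sym2 V × ι) :
    ∑ l : Sym2 V ⊕ (V × ι), (if a ∈ SS l then gg l else 0) ≤ 9 := by
  classical
  rw [Fintype.sum_sum_type]
  have h1 : ∑ e : Sym2 V, (if a ∈ SS (Sum.inl e : Sym2 V ⊕ (V × ι)) then
      gg (Sum.inl e : Sym2 V ⊕ (V × ι)) else 0) = 5 := by
    have : ∀ e : Sym2 V, (if a ∈ SS (Sum.inl e : Sym2 V ⊕ (V × ι)) then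
      gg (Sum.inl e : Sym2 V ⊕ (V × ι)) else 0) = if a.1 = e then 5 else 0 := by
      intro e
      simp only [mem_inl, gg]
    simp only [this]
    rw [Finset.sum_ite_eq]
    simp
  have h2 : ∑ p : V × ι, (if a ∈ SS (Sum.inr p : Sym2 V ⊕ (V × ι)) then
      gg (Sum.inr p : Sym2 V ⊕ (V × ι)) else 0) ≤ 4 := by
    rw [Fintype.sum_prod_type]
    have h3 : ∀ (v : V) (i : ι), (if a ∈ SS (Sum.inr (v, i) : Sym2 V ⊕ (V × ι)) then
      gg (Sum.inr (v, i) : Sym2 V ⊕ (V × ι)) else 0) =
        if a.2 = i then (if v ∈ a.1 then 2 else 0) else 0 := by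
      intro v i
      simp only [mem_inr, gg]
      by_cases hv : v ∈ a.1 <;> by_cases hi : a.2 = i <;> simp [hv, hi]
    simp only [h3]
    have h4 : ∀ v : V, ∑ i : ι, (if a.2 = i then (if v ∈ a.1 then 2 else 0) else 0) =
        if v ∈ a.1 then 2 else 0 := by
      intro v
      rw [Finset.sum_ite_eq]
      simp
    simp only [h4]
    rw [← Finset.sum_filter, Finset.sum_const, smul_eq_mul]
    have h5 : (univ.filter (fun v => v ∈ a.1)).card ≤ 2 := by
      obtain ⟨e, i⟩ := a
      induction e using Sym2.ind with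
      | _ x y =>
        refine (card_le_card (t := {x, y}) ?_).trans (card_le_two)
        intro v hv
        simpa using hv
    omega
  omega

theorem count (F : Finset (Sym2 V × ι)) (hF : F.Nonempty) :
    (univ.filter (fun l : Sym2 V ⊕ (V × ι) => th l ≤ (SS l ∩ F).card)).card < F.card := by
  classical
  set Act := univ.filter (fun l : Sym2 V ⊕ (V × ι) => th l ≤ (SS l ∩ F).card) with hAct
  have h1 : Act.card * 10 ≤ ∑ l ∈ Act, gg l * (SS l ∩ F).card := by
    rw [← smul_eq_mul, ← sum_const]
    refine sum_le_sum fun l hl => ?_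
    have h2 := (mem_filter.1 hl).2
    rcases l with e | p
    · simp only [th] at h2
      simp only [gg]
      omega
    · simp only [th] at h2
      simp only [gg]
      omega
  have h2 : ∑ l ∈ Act, gg l * (SS l ∩ F).card ≤ ∑ l, gg l * (SS l ∩ F).card :=
    sum_le_sum_of_subset (subset_univ _)
  have h3 : ∑ l, gg l * (SS l ∩ F).card = ∑ a ∈ F, ∑ l : Sym2 V ⊕ (V × ι),
      (if a ∈ SS l then gg l else 0) := by
    rw [Finset.sum_comm]
    refine sum_congr rfl fun l _ => ?_
    rw [← Finset.sum_filter, Finset.sum_const, smul_eq_mul, mul_comm, Finset.inter_comm,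
      Finset.filter_mem_eq_inter]
  have h4 : ∑ a ∈ F, ∑ l : Sym2 V ⊕ (V × ι), (if a ∈ SS l then gg l else 0) ≤ F.card * 9 := by
    rw [← smul_eq_mul, ← sum_const]
    exact sum_le_sum fun a _ => sum_gg a
  have h5 := hF.card_pos
  omega

theorem split [Nonempty ι] (G : SimpleGraph V) [DecidableRel G.Adj] (x : Sym2 V × ι → ℝ)
    (hx01 : ∀ p, 0 ≤ x p ∧ x p ≤ 1) (hx0 : ∀ e i, e ∉ G.edgeSet → x (e, i) = 0)
    (hsx : ∀ e ∈ G.edgeSet, ∑ i, x (e, i) = 1) (w : ℝ)
    (hw : ∀ v i, ∑ u ∈ G.neighborFinset v, x (s(v, u), i) ≤ w) :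
    ∃ a : Sym2 V → ι, (∀ e ∈ G.edgeSet, x (e, a e) ≠ 0) ∧
      ∀ v i, (((G.neighborFinset v).filter (fun u => a s(v, u) = i)).card : ℝ) < w + 4 := by
  classical
  obtain ⟨y, hy1, hy2, hy3⟩ := round (SS : Sym2 V ⊕ (V × ι) → Finset (Sym2 V × ι)) th count _ x
    hx01 le_rfl
  have hsy : ∀ e ∈ G.edgeSet, ∑ i, y (e, i) = 1 := by
    intro e he
    have h1 := hy3 (Sum.inl e) (by simp [th])
    simp only [SS, th, Finset.sum_product, Finset.sum_singleton, Finset.sum_sub_distrib] at h1
    rw [hsx e he] at h1
    have h2 : ∑ i, y (e, i) = ((univ.filter (fun i => y (e, i) = 1)).card : ℝ) := by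
      rw [Finset.card_filter]
      push_cast
      refine sum_congr rfl fun i _ => ?_
      rcases hy1 (e, i) with h | h
      · rw [h]; simp
      · rw [h]; simp
    rw [h2] at h1 ⊢
    push_cast at h1
    rw [abs_lt] at h1
    set n := (univ.filter (fun i => y (e, i) = 1)).card
    have h3 : (n : ℝ) < 2 := by linarith [h1.2]
    have h4 : (0 : ℝ) < n := by linarith [h1.1]
    have h5 : n < 2 := by exact_mod_cast h3
    have h6 : 0 < n := by exact_mod_cast h4
    have h7 : n = 1 := by omega
    rw [h7]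
    norm_num
  have hex : ∀ e : Sym2 V, ∃ i : ι, e ∈ G.edgeSet → y (e, i) = 1 := by
    intro e
    by_cases he : e ∈ G.edgeSet
    · by_contra hcon
      push Not at hcon
      have h1 := hsy e he
      have h2 : ∑ i, y (e, i) = 0 := by
        refine sum_eq_zero fun i _ => ?_
        rcases hy1 (e, i) with h | h
        · exact h
        · exact absurd h (hcon i).2
      rw [h2] at h1
      norm_num at h1
    · exact ⟨Classical.arbitrary ι, fun h => absurd h he⟩
  choose a ha using hex
  refine ⟨a, ?_, ?_⟩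
  · intro e he h
    have h1 := ha e he
    rw [hy2 _ (Or.inl h), h] at h1
    norm_num at h1
  · intro v i
    have h1 := hy3 (Sum.inr (v, i)) (by simp [th])
    simp only [SS, th, Finset.sum_product, Finset.sum_singleton, Finset.sum_sub_distrib] at h1
    have hinj : ∀ u ∈ G.neighborFinset v, ∀ u' ∈ G.neighborFinset v,
        s(v, u) = s(v, u') → u = u' := by
      intro u _ u' _ h
      exact Sym2.congr_right.1 h
    have hsubset : (G.neighborFinset v).image (fun u => s(v, u)) ⊆
        univ.filter (fun e => v ∈ e) := by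
      intro e he
      rw [mem_image] at he
      obtain ⟨u, _, rfl⟩ := he
      simp
    have hx2 : ∑ e ∈ univ.filter (fun e => v ∈ e), x (e, i) ≤ w := by
      have h2 : ∑ e ∈ univ.filter (fun e => v ∈ e), x (e, i) =
          ∑ e ∈ (G.neighborFinset v).image (fun u => s(v, u)), x (e, i) := by
        symm
        apply Finset.sum_subset hsubset
        intro e he hne
        rw [mem_filter] at he
        apply hx0
        intro h3
        obtain ⟨u, rfl⟩ := he.2
        apply hne
        rw [mem_image]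
        exact ⟨u, (G.mem_neighborFinset v u).2 h3, rfl⟩
      rw [h2, Finset.sum_image hinj]
      exact hw v i
    have hy4 : (((G.neighborFinset v).filter (fun u => a s(v, u) = i)).card : ℝ) ≤
        ∑ e ∈ univ.filter (fun e => v ∈ e), y (e, i) := by
      have hy0 : ∀ p, 0 ≤ y p := by
        intro p
        rcases hy1 p with h | h <;> rw [h]
        norm_num
      calc (((G.neighborFinset v).filter (fun u => a s(v, u) = i)).card : ℝ)
          = ∑ u ∈ (G.neighborFinset v).filter (fun u => a s(v, u) = i), (1 : ℝ) := by simp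
        _ ≤ ∑ u ∈ (G.neighborFinset v).filter (fun u => a s(v, u) = i), y (s(v, u), i) := by
            refine sum_le_sum fun u hu => ?_
            rw [mem_filter] at hu
            have h3 := ha s(v, u) ((G.mem_neighborFinset v u).1 hu.1)
            rw [hu.2] at h3
            rw [h3]
        _ ≤ ∑ u ∈ G.neighborFinset v, y (s(v, u), i) :=
            sum_le_sum_of_subset_of_nonneg (filter_subset _ _) fun u _ _ => hy0 _
        _ = ∑ e ∈ (G.neighborFinset v).image (fun u => s(v, u)), y (e, i) :=
            (Finset.sum_image (f := fun e => y (e, i)) hinj).symm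
        _ ≤ ∑ e ∈ univ.filter (fun e => v ∈ e), y (e, i) :=
            sum_le_sum_of_subset_of_nonneg hsubset fun e _ _ => hy0 _
    rw [abs_lt] at h1
    push_cast at h1
    linarith [h1.2]

end Pool.Agent.U122.HY
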