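import Mathlib

/-!
# An exact fractional design on a circle

`m = L + f` blocks are placed around a circle; a type `s` may use the `L` blocks
`s, …, s + L - 1`.  The block `i` has the position `a = i - s` for the type `s`.  A pair of types
for which a block has the positions `a` and `b` uses this block with weight `W L f a b`.
The sum of the weights of a type at a block over all the other types is `(L + f) (L - f)`, and the
sum of the weights of a pair of types is at least `L (L - f) - (f - 1)`.
-/

set_option autoImplicit false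

namespace Pool.Agent.U122.HY

open Finset

/-- the number of the intervals `[θ, θ + f - 1]`, `1 ≤ θ ≤ L - 1 - f`, which contain both points -/
def lam (L f a b : ℕ) : ℕ :=
  ((Icc 1 (L - 1 - f)).filter (fun θ => θ ≤ a ∧ θ ≤ b ∧ a < θ + f ∧ b < θ + f)).card

/-- the weights -/
def W (L f a b : ℕ) : ℤ :=
  if a < L ∧ b < L then
    if a + f ≤ b ∨ b + f ≤ a then (L : ℤ)
    else (L : ℤ) - f + (if f ≤ a + b ∧ a + b + f + 2 ≤ 2 * L then (f : ℤ) else 0) - lam L f a b
  else 0

theorem lam_symm (L f a b : ℕ) : lam L f a b = lam L f b a := by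
  unfold lam
  congr 1
  ext θ
  simp only [mem_filter]
  tauto

theorem W_symm (L f a b : ℕ) : W L f a b = W L f b a := by
  unfold W
  rw [lam_symm L f a b, add_comm a b]
  by_cases h1 : a < L ∧ b < L
  · by_cases h2 : a + f ≤ b ∨ b + f ≤ a
    · rw [if_pos h1, if_pos h2, if_pos h1.symm, if_pos h2.symm]
    · have h3 : ¬ (b + f ≤ a ∨ a + f ≤ b) := fun h => h2 h.symm
      rw [if_pos h1, if_neg h2, if_pos h1.symm, if_neg h3]
  · have h3 : ¬ (b < L ∧ a < L) := fun h => h1 h.symm
    rw [if_neg h1, if_neg h3]

theorem lam_le (L f a b : ℕ) : lam L f a b ≤ L - 1 - f := by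
  unfold lam
  refine (card_filter_le _ _).trans ?_
  rw [Nat.card_Icc]
  omega

theorem W_pos (L f a b : ℕ) (hf : f < L) (ha : a < L) (hb : b < L) : 0 < W L f a b := by
  unfold W
  rw [if_pos ⟨ha, hb⟩]
  have h := lam_le L f a b
  split_ifs <;> omega

theorem W_zero (L f a b : ℕ) (h : ¬ (a < L ∧ b < L)) : W L f a b = 0 := by
  unfold W
  rw [if_neg h]

theorem W_nonneg (L f a b : ℕ) (hf : f < L) : 0 ≤ W L f a b := by
  by_cases h : a < L ∧ b < L
  · exact (W_pos L f a b hf h.1 h.2).le
  · rw [W_zero L f a b h]

theorem W_le (L f a b : ℕ) : W L f a b ≤ L := by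
  unfold W
  split_ifs <;> omega

/-- the sum of the weights at a position -/
theorem row (L f a : ℕ) (hf1 : 1 ≤ f) (hf : f < L) (ha : a < L) :
    ∑ b ∈ range L, W L f a b = (L + f) * (L - f : ℤ) := by
  have h1 : ∀ b ∈ range L, W L f a b = (L : ℤ) -
      ((if a + b < f then (f : ℤ) else 0) + (if 2 * L < a + b + f + 2 then (f : ℤ) else 0) +
        lam L f a b) := by
    intro b hb
    rw [mem_range] at hb
    unfold W
    rw [if_pos ⟨ha, hb⟩]
    by_cases h2 : a + f ≤ b ∨ b + f ≤ a
    · have h3 : lam L f a b = 0 := by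
        unfold lam
        rw [card_eq_zero, filter_eq_empty_iff]
        intro θ _
        omega
      rw [if_pos h2, if_neg (by omega), if_neg (by omega), h3]
      simp
    · rw [if_neg h2]
      split_ifs <;> omega
  rw [sum_congr rfl h1, sum_sub_distrib, sum_add_distrib, sum_add_distrib, sum_const, card_range,
    ← sum_filter, ← sum_filter, sum_const, sum_const]
  have e1 : ((range L).filter (fun b => a + b < f)).card = f - a := by
    have : (range L).filter (fun b => a + b < f) = range (f - a) := by
      ext b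
      simp only [mem_filter, mem_range]
      omega
    rw [this, card_range]
  have e2 : ((range L).filter (fun b => 2 * L < a + b + f + 2)).card = f + a + 1 - L := by
    have : (range L).filter (fun b => 2 * L < a + b + f + 2) = Ico (2 * L - (a + f + 1)) L := by
      ext b
      simp only [mem_filter, mem_range, mem_Ico]
      omega
    rw [this, Nat.card_Ico]
    omega
  have e3 : ∑ b ∈ range L, (lam L f a b : ℤ) =
      f * (((Icc 1 (L - 1 - f)).filter (fun θ => θ ≤ a ∧ a < θ + f)).card : ℤ) := by
    have h4 : ∑ b ∈ range L, lam L f a b =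
        ((Icc 1 (L - 1 - f)).filter (fun θ => θ ≤ a ∧ a < θ + f)).card * f := by
      have h5 : ∀ b, lam L f a b = ∑ θ ∈ (Icc 1 (L - 1 - f)).filter (fun θ => θ ≤ a ∧ a < θ + f),
          if θ ≤ b ∧ b < θ + f then 1 else 0 := by
        intro b
        unfold lam
        rw [← card_filter, filter_filter]
        congr 1
        ext θ
        simp only [mem_filter]
        tauto
      simp only [h5]
      rw [sum_comm, ← smul_eq_mul, ← sum_const]
      refine sum_congr rfl fun θ hθ => ?_
      rw [mem_filter, mem_Icc] at hθ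
      rw [← card_filter]
      have : (range L).filter (fun b => θ ≤ b ∧ b < θ + f) = Ico θ (θ + f) := by
        ext b
        simp only [mem_filter, mem_range, mem_Ico]
        omega
      rw [this, Nat.card_Ico]
      omega
    rw [← Nat.cast_sum, h4]
    push_cast
    ring
  have e4 : ((Icc 1 (L - 1 - f)).filter (fun θ => θ ≤ a ∧ a < θ + f)).card =
      min a (L - 1 - f) + 1 - max 1 (a + 1 - f) := by
    have : (Icc 1 (L - 1 - f)).filter (fun θ => θ ≤ a ∧ a < θ + f) =
        Icc (max 1 (a + 1 - f)) (min a (L - 1 - f)) := by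
      ext θ
      simp only [mem_filter, mem_Icc]
      omega
    rw [this, Nat.card_Icc]
  rw [e1, e2, e3, e4]
  have e5 : (f - a) + (f + a + 1 - L) + (min a (L - 1 - f) + 1 - max 1 (a + 1 - f)) = f := by
    omega
  have e6 : (((f - a : ℕ) : ℤ) + ((f + a + 1 - L : ℕ) : ℤ)) +
      ((min a (L - 1 - f) + 1 - max 1 (a + 1 - f) : ℕ) : ℤ) = f := by exact_mod_cast e5
  simp only [nsmul_eq_mul]
  linear_combination (-(f : ℤ)) * e6

/-- the sum of the weights on a diagonal -/
theorem diag (L f d : ℕ) (hf : f < L) (hd : d < f) :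
    (L : ℤ) * (L - f) - (f - 1) ≤ ∑ b ∈ range (L - d), W L f (b + d) b := by
  have h1 : ∀ b ∈ range (L - d), W L f (b + d) b = ((L : ℤ) - f) +
      (if f ≤ 2 * b + d ∧ 2 * b + d + f + 2 ≤ 2 * L then (f : ℤ) else 0) - lam L f (b + d) b := by
    intro b hb
    rw [mem_range] at hb
    unfold W
    rw [if_pos ⟨by omega, by omega⟩, if_neg (by omega)]
    have : b + d + b = 2 * b + d := by ring
    rw [this]
  rw [sum_congr rfl h1, sum_sub_distrib, sum_add_distrib, sum_const, card_range, ← sum_filter,
    sum_const]
  have e1 : L - f - (f + d) % 2 ≤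
      ((range (L - d)).filter (fun b => f ≤ 2 * b + d ∧ 2 * b + d + f + 2 ≤ 2 * L)).card := by
    have : Ico ((f - d + 1) / 2) ((f - d + 1) / 2 + (L - f - (f + d) % 2)) ⊆
        (range (L - d)).filter (fun b => f ≤ 2 * b + d ∧ 2 * b + d + f + 2 ≤ 2 * L) := by
      intro b
      simp only [mem_filter, mem_range, mem_Ico]
      omega
    have h2 := card_le_card this
    rw [Nat.card_Ico] at h2
    omega
  have e3 : ∑ b ∈ range (L - d), (lam L f (b + d) b : ℤ) = ((L - 1 - f : ℕ) : ℤ) * (f - d) := by
    have h4 : ∑ b ∈ range (L - d), lam L f (b + d) b = (L - 1 - f) * (f - d) := by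
      have h5 : ∀ b, lam L f (b + d) b = ∑ θ ∈ Icc 1 (L - 1 - f),
          if θ ≤ b + d ∧ θ ≤ b ∧ b + d < θ + f ∧ b < θ + f then 1 else 0 := by
        intro b
        unfold lam
        rw [card_filter]
      simp only [h5]
      have h6 : (L - 1 - f) = (Icc 1 (L - 1 - f)).card := by rw [Nat.card_Icc]; omega
      rw [sum_comm]
      conv_rhs => rw [h6]
      rw [← smul_eq_mul, ← sum_const]
      refine sum_congr rfl fun θ hθ => ?_
      rw [mem_Icc] at hθ
      rw [← card_filter]
      have : (range (L - d)).filter (fun b => θ ≤ b + d ∧ θ ≤ b ∧ b + d < θ + f ∧ b < θ + f) =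
          Ico θ (θ + (f - d)) := by
        ext b
        simp only [mem_filter, mem_range, mem_Ico]
        omega
      rw [this, Nat.card_Ico]
      omega
    rw [← Nat.cast_sum, h4]
    push_cast
    rw [Nat.cast_sub hd.le]
  rw [e3]
  simp only [nsmul_eq_mul]
  set n := ((range (L - d)).filter (fun b => f ≤ 2 * b + d ∧ 2 * b + d + f + 2 ≤ 2 * L)).card
  have hn : ((L : ℤ) - f - ((f + d) % 2 : ℕ)) ≤ n := by omega
  have c1 : ((L - d : ℕ) : ℤ) = (L : ℤ) - d := by omega
  have c2 : ((L - 1 - f : ℕ) : ℤ) = (L : ℤ) - 1 - f := by omega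
  rw [c1, c2]
  have hf0 : (0 : ℤ) ≤ f := by positivity
  have h7 : ((L : ℤ) - f - ((f + d) % 2 : ℕ)) * f ≤ n * f := mul_le_mul_of_nonneg_right hn hf0
  rcases Nat.mod_two_eq_zero_or_one (f + d) with h8 | h8
  · rw [h8] at h7
    push_cast at h7
    have h9 : (d : ℤ) < f := by exact_mod_cast hd
    nlinarith
  · rw [h8] at h7
    push_cast at h7
    have h9 : (d : ℤ) + 1 ≤ f := by exact_mod_cast hd
    nlinarith

/-- the sum of the weights of two types at cyclic distance `d` -/
theorem cyc (L f d : ℕ) (hf1 : 1 ≤ f) (hf : f < L) (hd : d < L + f) :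
    (L : ℤ) * (L - f) - (f - 1) ≤ ∑ i ∈ range (L + f), W L f i ((i + d) % (L + f)) := by
  have hnn : ∀ i ∈ range (L + f), 0 ≤ W L f i ((i + d) % (L + f)) :=
    fun i _ => W_nonneg L f _ _ hf
  rcases lt_or_ge d f with h | h
  · refine (diag L f d hf h).trans ?_
    calc ∑ b ∈ range (L - d), W L f (b + d) b =
        ∑ i ∈ range (L - d), W L f i ((i + d) % (L + f)) := by
          refine sum_congr rfl fun i hi => ?_
          rw [mem_range] at hi
          rw [Nat.mod_eq_of_lt (by omega), W_symm]
      _ ≤ _ := by
          refine sum_le_sum_of_subset_of_nonneg ?_ (fun i hi _ => hnn i hi)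
          intro i
          simp only [mem_range]
          omega
  rcases lt_or_ge L d with h' | h'
  · refine (diag L f (L + f - d) hf (by omega)).trans ?_
    calc ∑ b ∈ range (L - (L + f - d)), W L f (b + (L + f - d)) b =
        ∑ i ∈ Ico (L + f - d) L, W L f i ((i + d) % (L + f)) := by
          rw [sum_Ico_eq_sum_range]
          refine sum_congr rfl fun i hi => ?_
          rw [mem_range] at hi
          have e1 : L + f - d + i + d = i + (L + f) := by omega
          rw [e1, Nat.add_mod_right, Nat.mod_eq_of_lt (by omega), add_comm i]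
      _ ≤ _ := by
          refine sum_le_sum_of_subset_of_nonneg ?_ (fun i hi _ => hnn i hi)
          intro i
          simp only [mem_range, mem_Ico]
          omega
  · -- both parts are constant
    have hdisj : Disjoint (range (L - d)) (Ico (L + f - d) L) := by
      rw [disjoint_left]
      intro i
      simp only [mem_range, mem_Ico]
      omega
    have h1 : ∑ i ∈ range (L - d) ∪ Ico (L + f - d) L, W L f i ((i + d) % (L + f)) ≤
        ∑ i ∈ range (L + f), W L f i ((i + d) % (L + f)) := by
      refine sum_le_sum_of_subset_of_nonneg ?_ (fun i hi _ => hnn i hi)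
      intro i
      simp only [mem_union, mem_range, mem_Ico]
      omega
    refine le_trans ?_ h1
    rw [sum_union hdisj]
    have h2 : ∑ i ∈ range (L - d), W L f i ((i + d) % (L + f)) = (L - d) * (L : ℤ) := by
      have : ∀ i ∈ range (L - d), W L f i ((i + d) % (L + f)) = L := by
        intro i hi
        rw [mem_range] at hi
        rw [Nat.mod_eq_of_lt (by omega)]
        unfold W
        rw [if_pos ⟨by omega, by omega⟩, if_pos (by omega)]
      rw [sum_congr rfl this, sum_const, card_range, nsmul_eq_mul, Nat.cast_sub h']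
    have h3 : ∑ i ∈ Ico (L + f - d) L, W L f i ((i + d) % (L + f)) = (d - f) * (L : ℤ) := by
      have : ∀ i ∈ Ico (L + f - d) L, W L f i ((i + d) % (L + f)) = L := by
        intro i hi
        rw [mem_Ico] at hi
        have e1 : i + d = (i + d - (L + f)) + (L + f) := by omega
        rw [e1, Nat.add_mod_right, Nat.mod_eq_of_lt (by omega)]
        unfold W
        rw [if_pos ⟨by omega, by omega⟩, if_pos (by omega)]
      rw [sum_congr rfl this, sum_const, Nat.card_Ico, nsmul_eq_mul]
      congr 1
      omega
    rw [h2, h3]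
    have hf1' : (1 : ℤ) ≤ f := by exact_mod_cast hf1
    nlinarith

end Pool.Agent.U122.HY
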