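import Mathlib
import Pool.Agent.H238R2.HY.Part
import Pool.Agent.U122.HY.Design

/-!
# Random types
-/

set_option autoImplicit false

namespace Pool.Agent.U122.HY

open Finset Pool.Agent.Helper635.LLL Classical

/-- the exponential moment of a sum of independent variables with values in `[0, 1]` -/
theorem mgf {V C : Type} [Fintype V] [Fintype C] [Nonempty C] (S : Finset V) (D : ℕ)
    (hS : S.card ≤ D) (h : C → ℝ) (h0 : ∀ c, 0 ≤ h c) (h1 : ∀ c, h c ≤ 1) (μ : ℝ) (hμ0 : 0 ≤ μ)
    (hμ : ∑ c, h c ≤ μ * Fintype.card C) (r : ℝ) (hr : 0 ≤ r) (z : ℝ) :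
    (cnt (fun ω : V → C => z ≤ ∑ u ∈ S, h (ω u)) : ℝ) * Real.exp (r * z) ≤
      (1 + μ * (Real.exp r - 1)) ^ D * Fintype.card (V → C) := by
  have hr1 : 0 ≤ Real.exp r - 1 := by
    have := Real.one_le_exp hr
    linarith
  have hC : (0 : ℝ) < Fintype.card C := by exact_mod_cast Fintype.card_pos
  -- moment generating function
  have e1 : (cnt (fun ω : V → C => z ≤ ∑ u ∈ S, h (ω u)) : ℝ) * Real.exp (r * z) ≤
      ∑ ω : V → C, ∏ u : V, (if u ∈ S then Real.exp (r * h (ω u)) else 1) := by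
    have e2 : ∀ ω : V → C, ∏ u : V, (if u ∈ S then Real.exp (r * h (ω u)) else 1) =
        Real.exp (r * ∑ u ∈ S, h (ω u)) := by
      intro ω
      rw [Finset.mul_sum, Real.exp_sum, Finset.prod_ite, Finset.prod_const_one, mul_one]
      congr 1
      ext u; simp
    simp only [e2]
    rw [cnt, Finset.card_eq_sum_ones, Nat.cast_sum, Finset.sum_mul]
    refine (Finset.sum_le_sum (f := fun _ => ((1 : ℕ) : ℝ) * Real.exp (r * z))
      (g := fun ω => Real.exp (r * ∑ u ∈ S, h (ω u))) ?_).trans ?_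
    · intro ω hω
      rw [mem_ev] at hω
      rw [Nat.cast_one, one_mul]
      exact Real.exp_le_exp.2 (mul_le_mul_of_nonneg_left hω hr)
    · refine Finset.sum_le_sum_of_subset_of_nonneg (Finset.subset_univ _) ?_
      intro ω _ _
      positivity
  refine e1.trans ?_
  have e3 : ∑ ω : V → C, ∏ u : V, (if u ∈ S then Real.exp (r * h (ω u)) else 1) =
      ∏ u : V, ∑ c : C, (if u ∈ S then Real.exp (r * h c) else 1) := by
    rw [Finset.prod_univ_sum]
    rfl
  rw [e3]
  have e4 : ∀ c, Real.exp (r * h c) ≤ 1 + h c * (Real.exp r - 1) := by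
    intro c
    have h2 := convexOn_exp.2 (Set.mem_univ (0 : ℝ)) (Set.mem_univ r)
      (show (0 : ℝ) ≤ 1 - h c by linarith [h1 c]) (h0 c) (by ring)
    simp only [smul_eq_mul, mul_zero, zero_add, Real.exp_zero, mul_one] at h2
    rw [mul_comm r]
    linarith
  have e5 : ∀ u : V, ∑ c : C, (if u ∈ S then Real.exp (r * h c) else 1) ≤
      (if u ∈ S then (1 + μ * (Real.exp r - 1)) else 1) * Fintype.card C := by
    intro u
    by_cases hu : u ∈ S
    · simp only [hu, if_true]
      calc ∑ c : C, Real.exp (r * h c) ≤ ∑ c : C, (1 + h c * (Real.exp r - 1)) :=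
            Finset.sum_le_sum fun c _ => e4 c
        _ = Fintype.card C + (∑ c, h c) * (Real.exp r - 1) := by
            rw [Finset.sum_add_distrib, Finset.sum_mul]
            simp
        _ ≤ Fintype.card C + (μ * Fintype.card C) * (Real.exp r - 1) := by
            have := mul_le_mul_of_nonneg_right hμ hr1
            linarith
        _ = _ := by ring
    · simp [hu]
  have hb1 : 1 ≤ 1 + μ * (Real.exp r - 1) := by
    have := mul_nonneg hμ0 hr1
    linarith
  calc ∏ u : V, ∑ c : C, (if u ∈ S then Real.exp (r * h c) else 1)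
      ≤ ∏ u : V, ((if u ∈ S then (1 + μ * (Real.exp r - 1)) else 1) * Fintype.card C) := by
        refine Finset.prod_le_prod (fun u _ => Finset.sum_nonneg fun c _ => ?_) fun u _ => e5 u
        split_ifs <;> positivity
    _ = (1 + μ * (Real.exp r - 1)) ^ S.card * (Fintype.card C : ℝ) ^ Fintype.card V := by
        rw [Finset.prod_mul_distrib, Finset.prod_ite, Finset.prod_const, Finset.prod_const_one,
          mul_one, Finset.prod_const, Finset.card_univ]
        congr 3
        ext u; simp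
    _ ≤ (1 + μ * (Real.exp r - 1)) ^ D * (Fintype.card C : ℝ) ^ Fintype.card V := by
        refine mul_le_mul_of_nonneg_right (pow_le_pow_right₀ hb1 hS) (by positivity)
    _ = _ := by
        rw [Fintype.card_fun]
        push_cast
        rfl

/-- upper tail of relative size `x ≤ 1` -/
theorem tailA {V C : Type} [Fintype V] [Fintype C] [Nonempty C] (S : Finset V) (D : ℕ)
    (hS : S.card ≤ D) (h : C → ℝ) (h0 : ∀ c, 0 ≤ h c) (h1 : ∀ c, h c ≤ 1) (μ : ℝ) (hμ0 : 0 ≤ μ)
    (hμ : ∑ c, h c ≤ μ * Fintype.card C) (x : ℝ) (hx : 0 ≤ x) (hx1 : x ≤ 1) :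
    (cnt (fun ω : V → C => (1 + x) * (D * μ) ≤ ∑ u ∈ S, h (ω u)) : ℝ) ≤
      Real.exp (-(x ^ 2 * (D * μ) / 3)) * Fintype.card (V → C) := by
  have hlog : 0 ≤ Real.log (1 + x) := Real.log_nonneg (by linarith)
  have h2 := mgf (V := V) S D hS h h0 h1 μ hμ0 hμ (Real.log (1 + x)) hlog ((1 + x) * (D * μ))
  rw [Real.exp_log (by linarith)] at h2
  have h3 : (1 + μ * (1 + x - 1)) ^ D ≤ Real.exp (x * (D * μ)) := by
    calc (1 + μ * (1 + x - 1)) ^ D ≤ (Real.exp (μ * x)) ^ D := by
          refine pow_le_pow_left₀ (by nlinarith) ?_ _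
          have := Real.add_one_le_exp (μ * x)
          linarith
      _ = Real.exp (x * (D * μ)) := by
          rw [← Real.exp_nat_mul]; congr 1; ring
  have h4 := Pool.Agent.H238R2.HY.entropy hx hx1
  have h5 : (0 : ℝ) ≤ D * μ := by positivity
  have h6 : Real.exp (x * (D * μ)) ≤ Real.exp (-(x ^ 2 * (D * μ) / 3)) *
      Real.exp (Real.log (1 + x) * ((1 + x) * (D * μ))) := by
    rw [← Real.exp_add]
    apply Real.exp_le_exp.2
    have := mul_le_mul_of_nonneg_right h4 h5
    nlinarith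
  have hN : (0 : ℝ) ≤ Fintype.card (V → C) := by positivity
  have h7 : (cnt (fun ω : V → C => (1 + x) * (D * μ) ≤ ∑ u ∈ S, h (ω u)) : ℝ) *
      Real.exp (Real.log (1 + x) * ((1 + x) * (D * μ))) ≤
      (Real.exp (-(x ^ 2 * (D * μ) / 3)) * Fintype.card (V → C)) *
        Real.exp (Real.log (1 + x) * ((1 + x) * (D * μ))) := by
    calc _ ≤ (1 + μ * (1 + x - 1)) ^ D * Fintype.card (V → C) := h2
      _ ≤ Real.exp (x * (D * μ)) * Fintype.card (V → C) := mul_le_mul_of_nonneg_right h3 hN
      _ ≤ (Real.exp (-(x ^ 2 * (D * μ) / 3)) *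
            Real.exp (Real.log (1 + x) * ((1 + x) * (D * μ)))) * Fintype.card (V → C) :=
          mul_le_mul_of_nonneg_right h6 hN
      _ = _ := by ring
  exact le_of_mul_le_mul_right h7 (Real.exp_pos _)

/-- upper tail for variables with mean close to one -/
theorem tailB {V C : Type} [Fintype V] [Fintype C] [Nonempty C] (S : Finset V) (D : ℕ)
    (hS : S.card ≤ D) (hD : 1 ≤ D) (h : C → ℝ) (h0 : ∀ c, 0 ≤ h c) (h1 : ∀ c, h c ≤ 1) (μ : ℝ)
    (hμ0 : 0 ≤ μ) (hμ1 : μ < 1) (hμ : ∑ c, h c ≤ μ * Fintype.card C) (t : ℝ) (ht : 0 ≤ t) :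
    (cnt (fun ω : V → C => D * μ + t ≤ ∑ u ∈ S, h (ω u)) : ℝ) ≤
      Real.exp (-(t ^ 2 / (2 * (D * (1 - μ))))) * Fintype.card (V → C) := by
  have hDr : (1 : ℝ) ≤ D := by exact_mod_cast hD
  have hv : 0 < D * (1 - μ) := mul_pos (by linarith) (by linarith)
  set r : ℝ := t / (D * (1 - μ)) with hr
  have hr0 : 0 ≤ r := by positivity
  have h2 := mgf (V := V) S D hS h h0 h1 μ hμ0 hμ r hr0 (D * μ + t)
  have h3 : 1 + μ * (Real.exp r - 1) ≤ Real.exp (μ * r + (1 - μ) * (r ^ 2 / 2)) := by
    have e1 : 1 + μ * (Real.exp r - 1) = Real.exp r * (1 - (1 - μ) * (1 - Real.exp (-r))) := by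
      have : Real.exp r * Real.exp (-r) = 1 := by rw [← Real.exp_add]; simp
      linear_combination (-(1 - μ)) * this
    have e2 : r - r ^ 2 / 2 ≤ 1 - Real.exp (-r) := by
      have q1 := Real.quadratic_le_exp_of_nonneg hr0
      have q2 : Real.exp r * Real.exp (-r) = 1 := by rw [← Real.exp_add]; simp
      have q3 : 0 < Real.exp (-r) := Real.exp_pos _
      have q4 : (1 + r + r ^ 2 / 2) * Real.exp (-r) ≤ 1 := by
        calc (1 + r + r ^ 2 / 2) * Real.exp (-r) ≤ Real.exp r * Real.exp (-r) :=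
              mul_le_mul_of_nonneg_right q1 q3.le
          _ = 1 := q2
      have q5 : (1 : ℝ) ≤ (1 - r + r ^ 2 / 2) * (1 + r + r ^ 2 / 2) := by
        nlinarith [sq_nonneg (r ^ 2)]
      have q6 : 0 < 1 + r + r ^ 2 / 2 := by positivity
      have q7 : (1 + r + r ^ 2 / 2) * Real.exp (-r) ≤
          (1 + r + r ^ 2 / 2) * (1 - r + r ^ 2 / 2) := by
        linarith [mul_comm (1 - r + r ^ 2 / 2) (1 + r + r ^ 2 / 2)]
      have q8 := le_of_mul_le_mul_left q7 q6
      linarith
    have e3 : 1 - (1 - μ) * (1 - Real.exp (-r)) ≤ Real.exp (-((1 - μ) * (r - r ^ 2 / 2))) := by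
      have q1 := Real.add_one_le_exp (-((1 - μ) * (r - r ^ 2 / 2)))
      have q2 := mul_le_mul_of_nonneg_left e2 (show 0 ≤ 1 - μ by linarith)
      linarith
    rw [e1]
    calc Real.exp r * (1 - (1 - μ) * (1 - Real.exp (-r)))
        ≤ Real.exp r * Real.exp (-((1 - μ) * (r - r ^ 2 / 2))) :=
          mul_le_mul_of_nonneg_left e3 (Real.exp_pos _).le
      _ = _ := by rw [← Real.exp_add]; congr 1; ring
  have h4 : (1 + μ * (Real.exp r - 1)) ^ D ≤
      Real.exp (-(t ^ 2 / (2 * (D * (1 - μ))))) * Real.exp (r * (D * μ + t)) := by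
    have e0 : 0 ≤ 1 + μ * (Real.exp r - 1) := by
      have := Real.one_le_exp hr0
      nlinarith
    calc (1 + μ * (Real.exp r - 1)) ^ D ≤ (Real.exp (μ * r + (1 - μ) * (r ^ 2 / 2))) ^ D :=
          pow_le_pow_left₀ e0 h3 _
      _ = _ := by
          rw [← Real.exp_nat_mul, ← Real.exp_add]
          congr 1
          have e4 : t = r * (D * (1 - μ)) := by rw [hr, div_mul_cancel₀ _ hv.ne']
          have e5 : t ^ 2 / (2 * (D * (1 - μ))) = r ^ 2 * (D * (1 - μ)) / 2 := by
            rw [e4]; field_simp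
          rw [e5]
          nth_rewrite 1 [e4]
          ring
  have hN : (0 : ℝ) ≤ Fintype.card (V → C) := by positivity
  have h7 : (cnt (fun ω : V → C => D * μ + t ≤ ∑ u ∈ S, h (ω u)) : ℝ) *
      Real.exp (r * (D * μ + t)) ≤
      (Real.exp (-(t ^ 2 / (2 * (D * (1 - μ))))) * Fintype.card (V → C)) *
        Real.exp (r * (D * μ + t)) := by
    calc _ ≤ (1 + μ * (Real.exp r - 1)) ^ D * Fintype.card (V → C) := h2
      _ ≤ (Real.exp (-(t ^ 2 / (2 * (D * (1 - μ))))) * Real.exp (r * (D * μ + t))) *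
            Fintype.card (V → C) := mul_le_mul_of_nonneg_right h4 hN
      _ = _ := by ring
  exact le_of_mul_le_mul_right h7 (Real.exp_pos _)

/-- simultaneous control of finitely many statistics of all neighbourhoods -/
theorem exists_types {V C J : Type} [Fintype V] [Fintype C] [Nonempty C] [Fintype J]
    (G : SimpleGraph V) [DecidableRel G.Adj] (D : ℕ) (hD1 : 1 ≤ D) (hD : ∀ v, G.degree v ≤ D)
    (h : J → C → ℝ) (z : J → ℝ) (q : ℝ) (hq0 : 0 ≤ q)
    (hq : ∀ j (S : Finset V), S.card ≤ D →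
      (cnt (fun ω : V → C => z j ≤ ∑ u ∈ S, h j (ω u)) : ℝ) ≤ q * Fintype.card (V → C))
    (h4 : 4 * (Fintype.card J * q) * (D * D : ℕ) ≤ 1) :
    ∃ ω : V → C, ∀ v j, ∑ u ∈ G.neighborFinset v, h j (ω u) < z j := by
  have hcardpos : 0 < Fintype.card (V → C) := Fintype.card_pos
  obtain ⟨ω, hω⟩ := lll (ι := V) univ
    (fun v (ω : V → C) => ∃ j : J, z j ≤ ∑ u ∈ G.neighborFinset v, h j (ω u))
    (fun v => G.neighborFinset v)
    (by
      intro v _ ω ω' hag hbad
      obtain ⟨j, hj⟩ := hbad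
      refine ⟨j, le_trans hj (le_of_eq ?_)⟩
      refine Finset.sum_congr rfl fun u hu => ?_
      rw [hag u hu])
    (Fintype.card J * q) (D * D) (by positivity)
    (by
      intro v _
      have hsub : ev (fun ω : V → C => ∃ j : J, z j ≤ ∑ u ∈ G.neighborFinset v, h j (ω u)) ⊆
          (Finset.univ : Finset J).biUnion
            (fun j => ev (fun ω : V → C => z j ≤ ∑ u ∈ G.neighborFinset v, h j (ω u))) := by
        intro ω hω
        rw [mem_ev] at hω
        obtain ⟨j, hj⟩ := hω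
        rw [Finset.mem_biUnion]
        exact ⟨j, Finset.mem_univ _, mem_ev.mpr hj⟩
      have h1 := (Finset.card_le_card hsub).trans Finset.card_biUnion_le
      have h2 : (cnt (fun ω : V → C => ∃ j : J, z j ≤ ∑ u ∈ G.neighborFinset v, h j (ω u)) : ℝ) ≤
          ∑ j : J, (cnt (fun ω : V → C => z j ≤ ∑ u ∈ G.neighborFinset v, h j (ω u)) : ℝ) := by
        exact_mod_cast h1
      refine h2.trans ?_
      refine (Finset.sum_le_sum (fun j _ => hq j (G.neighborFinset v) (by
        rw [SimpleGraph.card_neighborFinset_eq_degree]; exact hD v))).trans ?_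
      rw [Finset.sum_const, Finset.card_univ, nsmul_eq_mul]
      exact le_of_eq (by ring))
    (by
      intro v _
      have hsub : univ.filter (fun j => ¬ Disjoint (G.neighborFinset v) (G.neighborFinset j)) ⊆
          (G.neighborFinset v).biUnion (fun u => G.neighborFinset u) := by
        intro j hj
        rw [mem_filter, Finset.not_disjoint_iff] at hj
        obtain ⟨u, hu1, hu2⟩ := hj.2
        rw [mem_biUnion]
        refine ⟨u, hu1, ?_⟩
        rw [SimpleGraph.mem_neighborFinset] at hu2 ⊢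
        exact hu2.symm
      refine (Finset.card_le_card hsub).trans (Finset.card_biUnion_le.trans ?_)
      have hs : ∑ u ∈ G.neighborFinset v, (G.neighborFinset u).card ≤
          ∑ _u ∈ G.neighborFinset v, D :=
        Finset.sum_le_sum (fun u _ => by
          rw [SimpleGraph.card_neighborFinset_eq_degree]; exact hD u)
      refine hs.trans ?_
      rw [Finset.sum_const, smul_eq_mul, SimpleGraph.card_neighborFinset_eq_degree]
      exact Nat.mul_le_mul_right _ (hD v))
    (by exact_mod_cast h4) (Nat.one_le_iff_ne_zero.2 (by positivity)) hcardpos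
  refine ⟨ω, fun v j => ?_⟩
  have h1 := hω v (mem_univ v)
  push Not at h1
  exact h1 j

end Pool.Agent.U122.HY
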