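import Mathlib
import Pool.Agent.U122.HY.Build
import Pool.Agent.U122.HY.Types
import Pool.Agent.U122.HY.Split

/-!
# The parametric theorem
-/

set_option autoImplicit false

namespace Pool.Agent.U122.HY

open Finset Pool.Agent.H238R2.HY

theorem rowF (m L f : ℕ) [NeZero m] (hm : m = L + f) (hf1 : 1 ≤ f) (hf : f < L) (a : ℕ)
    (i : Fin m) : ∑ c : Fin m, W L f a (i - c).val ≤ (m : ℤ) * (L - f) := by
  have hLf : (0 : ℤ) ≤ (m : ℤ) * (L - f) := by
    have : (f : ℤ) < L := by exact_mod_cast hf
    have h2 : (0 : ℤ) ≤ m := by positivity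
    exact mul_nonneg h2 (by linarith)
  by_cases ha : a < L
  · have e1 : ∑ c : Fin m, W L f a (i - c).val = ∑ c : Fin m, W L f a c.val :=
      Fintype.sum_equiv (Equiv.subLeft i) _ _ (fun c => by simp)
    rw [e1, Fin.sum_univ_eq_sum_range (fun b => W L f a b) m]
    have e2 : ∑ b ∈ range m, W L f a b = ∑ b ∈ range L, W L f a b := by
      symm
      apply sum_subset
      · intro b
        simp only [mem_range]
        omega
      · intro b _ hb
        rw [mem_range] at hb
        exact W_zero L f a b (fun h => hb h.2)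
    rw [e2, row L f a hf1 hf ha, hm]
    push_cast
    exact le_rfl
  · rw [sum_eq_zero (fun c _ => W_zero L f a _ (fun h => ha h.1))]
    exact hLf

theorem cycF (m L f : ℕ) [NeZero m] (hm : m = L + f) (hf1 : 1 ≤ f) (hf : f < L) (s t : Fin m) :
    (L : ℤ) * (L - f) - (f - 1) ≤ ∑ i : Fin m, W L f (i - s).val (i - t).val := by
  have e1 : ∑ i : Fin m, W L f (i - s).val (i - t).val =
      ∑ j : Fin m, W L f j.val ((j.val + (s - t).val) % m) := by
    refine Fintype.sum_equiv (Equiv.subRight s) _ _ (fun i => ?_)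
    have h1 : (i - t) = (i - s) + (s - t) := by abel
    simp only [Equiv.subRight_apply]
    rw [← Fin.val_add, ← h1]
  rw [e1, Fin.sum_univ_eq_sum_range (fun j => W L f j ((j + (s - t).val) % m)) m]
  have hd : (s - t).val < L + f := by rw [← hm]; exact (s - t).isLt
  generalize (s - t).val = d at hd
  rw [hm]
  exact cyc L f d hf1 hf hd

theorem param {V : Type} [Fintype V] (G : SimpleGraph V) [DecidableRel G.Adj] (D : ℕ)
    (hD1 : 1 ≤ D) (hD : ∀ v, G.degree v ≤ D) (m L f g K b p : ℕ) [NeZero m]
    (hmdef : m = L + f) (hm : m = g * K) (hg : 1 ≤ g) (hK : 1 ≤ K) (hb : 1 ≤ b) (hp : 1 ≤ p)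
    (hf1 : 1 ≤ f) (hf : f < L) (hC : (2 * g - 1) * b + 2 * p ≤ f * b + 2)
    (x t q : ℝ) (hx : 0 ≤ x) (hx1 : x ≤ 1) (ht : 0 ≤ t) (hq0 : 0 ≤ q)
    (hqA : Real.exp (-(x ^ 2 * (D * (1 / K)) / 3)) ≤ q)
    (hqB : Real.exp (-(t ^ 2 / (2 * (D * (f / L))))) ≤ q)
    (h4 : 4 * ((K + m * m : ℕ) * q) * (D * D : ℕ) ≤ 1)
    (hA : (1 + x) * (D * (1 / K)) ≤ g * b)
    (hB : ((D : ℝ) * (L - f) + L * t) / (L * (L - f) - (f - 1)) + 4 ≤ b) :
    CircLab G p (m * b) := by
  classical
  have hm0 : 0 < m := Nat.pos_of_ne_zero (NeZero.ne m)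
  have hLr : (0 : ℝ) < L := by exact_mod_cast (by omega : 0 < L)
  have hKr : (0 : ℝ) < K := by exact_mod_cast hK
  have hfL : (f : ℝ) < L := by exact_mod_cast hf
  have hf1r : (1 : ℝ) ≤ f := by exact_mod_cast hf1
  have hmr : (m : ℝ) = L + f := by rw [hmdef]; push_cast; ring
  set Q : ℝ := L * (L - f) - (f - 1) with hQdef
  have hQ : 0 < Q := by
    have h1 : (f : ℝ) + 1 ≤ L := by exact_mod_cast hf
    nlinarith
  -- the statistics
  let J := Fin K ⊕ (Fin m × Fin m)
  let h : J → Fin m → ℝ := fun j c => match j with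
    | Sum.inl κ => if c.val / g = κ.val then 1 else 0
    | Sum.inr si => (W L f (si.2 - si.1).val (si.2 - c).val : ℝ) / L
  let z : J → ℝ := fun j => match j with
    | Sum.inl _ => (1 + x) * (D * (1 / K))
    | Sum.inr _ => D * ((L - f) / L) + t
  have hcardJ : Fintype.card J = K + m * m := by
    simp only [J, Fintype.card_sum, Fintype.card_prod, Fintype.card_fin]
  have hh0 : ∀ j c, 0 ≤ h j c := by
    intro j c
    rcases j with κ | ⟨s, i⟩
    · simp only [h]
      split_ifs <;> norm_num
    · simp only [h]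
      have h1 := W_nonneg L f (i - s).val (i - c).val hf
      have h2 : (0 : ℝ) ≤ (W L f (i - s).val (i - c).val : ℝ) := by exact_mod_cast h1
      positivity
  have hh1 : ∀ j c, h j c ≤ 1 := by
    intro j c
    rcases j with κ | ⟨s, i⟩
    · simp only [h]
      split_ifs <;> norm_num
    · simp only [h]
      rw [div_le_one hLr]
      exact_mod_cast W_le L f (i - s).val (i - c).val
  have hsumA : ∀ κ : Fin K, ∑ c, h (Sum.inl κ) c ≤ (1 / K : ℝ) * Fintype.card (Fin m) := by
    intro κ
    simp only [h]
    rw [← Finset.sum_filter, Finset.sum_const, nsmul_eq_mul, mul_one, Fintype.card_fin]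
    have h1 : (univ.filter (fun c : Fin m => c.val / g = κ.val)).card ≤ g := by
      have h2 : ((univ.filter (fun c : Fin m => c.val / g = κ.val)).image (fun c => c.val)) ⊆
          Ico (κ.val * g) (κ.val * g + g) := by
        intro y hy
        rw [mem_image] at hy
        obtain ⟨c, hc, rfl⟩ := hy
        rw [mem_filter] at hc
        have h3 := Nat.div_add_mod c.val g
        have h4 := Nat.mod_lt c.val (show 0 < g by omega)
        rw [hc.2, mul_comm] at h3
        rw [mem_Ico]
        omega
      have h5 := card_le_card h2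
      rw [card_image_of_injective _ Fin.val_injective, Nat.card_Ico] at h5
      omega
    have h6 : (1 / K : ℝ) * m = g := by
      rw [hm]
      push_cast
      field_simp
    rw [h6]
    exact_mod_cast h1
  have hsumB : ∀ s i : Fin m, ∑ c, h (Sum.inr (s, i)) c ≤
      (((L : ℝ) - f) / L) * Fintype.card (Fin m) := by
    intro s i
    simp only [h]
    rw [← Finset.sum_div, Fintype.card_fin, div_mul_eq_mul_div, div_le_div_iff_of_pos_right hLr]
    have h1 := rowF m L f hmdef hf1 hf (i - s).val i
    have h2 : ((∑ c : Fin m, W L f (i - s).val (i - c).val : ℤ) : ℝ) ≤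
        (((m : ℤ) * (L - f) : ℤ) : ℝ) := by exact_mod_cast h1
    push_cast at h2
    linarith
  obtain ⟨τ, hτ⟩ := exists_types (V := V) (C := Fin m) (J := J) G D hD1 hD h z q hq0
    (by
      intro j S hS
      have hcn : (0 : ℝ) ≤ Fintype.card (V → Fin m) := by positivity
      rcases j with κ | ⟨s, i⟩
      · exact (tailA (V := V) S D hS (h (Sum.inl κ)) (hh0 (Sum.inl κ)) (hh1 (Sum.inl κ)) (1 / K) (by positivity)
          (hsumA κ) x hx hx1).trans (mul_le_mul_of_nonneg_right hqA hcn)
      · have h1 : 1 - ((L : ℝ) - f) / L = f / L := by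
          field_simp; ring
        have h2 := tailB (V := V) S D hS hD1 (h (Sum.inr (s, i)))
          (hh0 (Sum.inr (s, i))) (hh1 (Sum.inr (s, i)))
          (((L : ℝ) - f) / L) (div_nonneg (by linarith) hLr.le)
          (by rw [div_lt_one hLr]; linarith) (hsumB s i) t ht
        rw [h1] at h2
        exact h2.trans (mul_le_mul_of_nonneg_right hqB hcn))
    (by rw [hcardJ]; exact h4)
  -- the fractional assignment
  let Sm : Fin m → Fin m → ℝ := fun s t => ((∑ i : Fin m, W L f (i - s).val (i - t).val : ℤ) : ℝ)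
  have hSm : ∀ s t, Q ≤ Sm s t := by
    intro s t
    have h1 := cycF m L f hmdef hf1 hf s t
    have h2 : (((L : ℤ) * (L - f) - (f - 1) : ℤ) : ℝ) ≤ Sm s t := Int.cast_le.2 h1
    push_cast at h2
    exact h2
  have hSms : ∀ s t, Sm s t = Sm t s := by
    intro s t
    simp only [Sm]
    congr 1
    exact sum_congr rfl fun i _ => W_symm _ _ _ _
  let xe : Fin m → V → V → ℝ := fun i u v =>
    (W L f (i - τ u).val (i - τ v).val : ℝ) / Sm (τ u) (τ v)
  have hxes : ∀ i u v, xe i u v = xe i v u := by
    intro i u v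
    simp only [xe]
    rw [W_symm, hSms]
  have hxe0 : ∀ i u v, 0 ≤ xe i u v := by
    intro i u v
    simp only [xe]
    have h1 := W_nonneg L f (i - τ u).val (i - τ v).val hf
    have h2 : (0 : ℝ) ≤ (W L f (i - τ u).val (i - τ v).val : ℝ) := by exact_mod_cast h1
    exact div_nonneg h2 (hQ.le.trans (hSm _ _))
  have hxesum : ∀ u v, ∑ i, xe i u v = 1 := by
    intro u v
    simp only [xe]
    rw [← Finset.sum_div, ← Int.cast_sum]
    exact div_self (hQ.trans_le (hSm _ _)).ne'
  let X : Sym2 V × Fin m → ℝ := fun e =>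
    if e.1 ∈ G.edgeSet then Sym2.lift ⟨xe e.2, hxes e.2⟩ e.1 else 0
  have hXe : ∀ u v i, G.Adj u v → X (s(u, v), i) = xe i u v := by
    intro u v i huv
    simp only [X, SimpleGraph.mem_edgeSet, huv, if_true, Sym2.lift_mk]
  obtain ⟨a, ha1, ha2⟩ := split G X
    (by
      rintro ⟨e, i⟩
      by_cases he : e ∈ G.edgeSet
      · induction e using Sym2.ind with
        | _ u v =>
          rw [hXe u v i he]
          refine ⟨hxe0 i u v, ?_⟩
          rw [← hxesum u v]
          exact single_le_sum (f := fun i => xe i u v) (fun j _ => hxe0 j u v) (mem_univ i)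
      · simp only [X, he, if_false]
        exact ⟨le_rfl, zero_le_one⟩)
    (by
      intro e i he
      simp only [X, he, if_false])
    (by
      intro e he
      induction e using Sym2.ind with
      | _ u v =>
        have : ∀ i, X (s(u, v), i) = xe i u v := fun i => hXe u v i he
        simp only [this]
        exact hxesum u v)
    (((D : ℝ) * (L - f) + L * t) / Q)
    (by
      intro v i
      have h1 := hτ v (Sum.inr (τ v, i))
      simp only [h, z] at h1
      calc ∑ u ∈ G.neighborFinset v, X (s(v, u), i)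
          ≤ ∑ u ∈ G.neighborFinset v, (W L f (i - τ v).val (i - τ u).val : ℝ) / L * (L / Q) := by
            refine sum_le_sum fun u hu => ?_
            rw [hXe v u i ((G.mem_neighborFinset v u).1 hu)]
            simp only [xe]
            have h2 := W_nonneg L f (i - τ v).val (i - τ u).val hf
            have h3 : (0 : ℝ) ≤ (W L f (i - τ v).val (i - τ u).val : ℝ) := by exact_mod_cast h2
            have h4 : (W L f (i - τ v).val (i - τ u).val : ℝ) / L * (L / Q) =
                (W L f (i - τ v).val (i - τ u).val : ℝ) / Q := by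
              field_simp
            rw [h4]
            exact div_le_div_of_nonneg_left h3 hQ (hSm _ _)
        _ = (∑ u ∈ G.neighborFinset v, (W L f (i - τ v).val (i - τ u).val : ℝ) / L) * (L / Q) := by
            rw [Finset.sum_mul]
        _ ≤ (D * ((L - f) / L) + t) * (L / Q) :=
            mul_le_mul_of_nonneg_right h1.le (by positivity)
        _ = ((D : ℝ) * (L - f) + L * t) / Q := by
            field_simp)
  refine build G m L f g K b p hmdef hm hg hb hp hC τ ?_ a ?_ ?_
  · intro v κ
    by_cases hκ : κ < K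
    · have h1 := hτ v (Sum.inl ⟨κ, hκ⟩)
      simp only [h, z] at h1
      rw [← Finset.sum_filter, Finset.sum_const, nsmul_eq_mul, mul_one] at h1
      have h2 := h1.trans_le hA
      exact_mod_cast h2
    · have h3 : (G.neighborFinset v).filter (fun u => (τ u).val / g = κ) = ∅ := by
        apply Finset.filter_eq_empty_iff.2
        intro u _ hu
        apply hκ
        rw [← hu, Nat.div_lt_iff_lt_mul (by omega)]
        have := (τ u).isLt
        rw [mul_comm K g]
        omega
      rw [h3, card_empty]
      positivity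
  · intro u v huv
    have h1 := ha1 s(u, v) huv
    rw [hXe u v _ huv] at h1
    by_contra hcon
    apply h1
    simp only [xe]
    rw [W_zero L f _ _ (fun h => hcon h.1)]
    simp
  · intro v i
    have h1 := (ha2 v i).trans_le hB
    exact_mod_cast h1

end Pool.Agent.U122.HY
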