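import Mathlib
import Pool.Agent.U122.HY.Param
import Pool.Agent.H238R2.HY.Main

/-!
# The choice of the parameters
-/

set_option autoImplicit false

namespace Pool.Agent.U122.HY

open Finset Pool.Agent.H238R2.HY

/-- the error term -/
noncomputable def err2 (D p : ℕ) : ℝ :=
  Real.sqrt D + Real.sqrt (p * Real.log D) + (D : ℝ) ^ 2 * Real.log D / (p : ℝ) ^ 2

/-- the numbers of blocks and their lengths -/
theorem choose_nat (D s r B gap : ℝ) (p : ℕ) (hs75 : 75 < s) (hs2 : s * s = D) (hr0 : 0 ≤ r)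
    (hB0 : 0 ≤ B) (hgap : gap = D - 2 * p) (hcase : 24 * s + 2 * B < gap / 2)
    (hp : 1 ≤ p) :
    ∃ b g f K L : ℕ, s ≤ b ∧ (b : ℝ) < s + 1 ∧ 1 ≤ g ∧ B ≤ g * b ∧ (g : ℝ) * b ≤ B + b ∧
      1 ≤ f ∧ 2 * g * b + 2 * p ≤ f * b ∧ 1 ≤ K ∧ g * K = L + f ∧ f < L ∧
      (f : ℝ) * b ≤ 2 * p + 2 * B + 3 * b ∧ D ≤ L * b ∧
      (L : ℝ) ≤ (2 * D / gap) * (L - f) ∧
      D + (2 * D / gap) * (((b : ℝ) - 4) + (4 * r + 4 / 3 * B + 10 * s)) ≤ ((b : ℝ) - 4) * L ∧
      (((g * K) * b : ℕ) : ℝ) ≤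
        D + 2 * p + (2 * D / gap) * (33 * s + 8 * r + 25 / 6 * B) := by
  have hPr : (1 : ℝ) ≤ p := by exact_mod_cast hp
  have hgap0 : 0 < gap := by linarith
  have hgapD : gap ≤ D := by linarith
  have hD0 : 0 < D := by linarith
  obtain ⟨b, hbs, hbs1⟩ : ∃ b : ℕ, s ≤ b ∧ (b : ℝ) < s + 1 :=
    ⟨⌈s⌉₊, Nat.le_ceil s, Nat.ceil_lt_add_one (by linarith)⟩
  have hbr : (0 : ℝ) < b := by linarith
  have hb0 : 0 < b := by exact_mod_cast hbr
  obtain ⟨b', hb'⟩ : ∃ b' : ℝ, b' = b - 4 := ⟨_, rfl⟩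
  have hb'0 : 0 < b' := by linarith
  obtain ⟨g, hg1, hgb1, hgb2⟩ : ∃ g : ℕ, 1 ≤ g ∧ B ≤ g * b ∧ (g : ℝ) * b ≤ B + b := by
    refine ⟨⌊B / b⌋₊ + 1, Nat.le_add_left _ _, ?_, ?_⟩
    · have h1 := (Nat.lt_floor_add_one (B / b)).le
      rw [div_le_iff₀ hbr] at h1
      push_cast
      exact h1
    · have h1 := Nat.floor_le (show 0 ≤ B / b by positivity)
      rw [le_div_iff₀ hbr] at h1
      push_cast
      linarith
  obtain ⟨f, hf1, hfb1, hfb2⟩ : ∃ f : ℕ, 1 ≤ f ∧ 2 * g * b + 2 * p ≤ f * b ∧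
      f * b ≤ 2 * g * b + 2 * p + b := by
    refine ⟨2 * g + 2 * p / b + 1, Nat.le_add_left _ _, ?_, ?_⟩
    · have h1 := Nat.div_add_mod (2 * p) b
      have h2 := Nat.mod_lt (2 * p) hb0
      have h3 : (2 * g + 2 * p / b + 1) * b = 2 * g * b + b * (2 * p / b) + b := by ring
      rw [h3]
      omega
    · have h1 := Nat.mul_div_le (2 * p) b
      have h3 : (2 * g + 2 * p / b + 1) * b = 2 * g * b + b * (2 * p / b) + b := by ring
      rw [h3]
      omega
  have hfb2r : (f : ℝ) * b ≤ 2 * p + 2 * B + 3 * b := by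
    have : ((f * b : ℕ) : ℝ) ≤ ((2 * g * b + 2 * p + b : ℕ) : ℝ) := by exact_mod_cast hfb2
    push_cast at this
    linarith
  obtain ⟨t, ht⟩ : ∃ t : ℝ, t = 4 * r + 4 / 3 * B + 10 * s := ⟨_, rfl⟩
  have ht0 : 0 ≤ t := by rw [ht]; positivity
  obtain ⟨ρ, hρ⟩ : ∃ ρ : ℝ, ρ = 2 * D / gap := ⟨_, rfl⟩
  have hρ2 : 2 ≤ ρ := by
    rw [hρ, le_div_iff₀ hgap0]
    linarith
  have hρbt : 0 ≤ ρ * (b' + t) := by positivity
  obtain ⟨L0, hL01, hL02⟩ : ∃ L0 : ℕ, D + ρ * (b' + t) ≤ b' * L0 ∧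
      (L0 : ℝ) < (D + ρ * (b' + t)) / b' + 1 := by
    refine ⟨⌈(D + ρ * (b' + t)) / b'⌉₊, ?_, Nat.ceil_lt_add_one (by positivity)⟩
    have h1 := Nat.le_ceil ((D + ρ * (b' + t)) / b')
    rw [div_le_iff₀ hb'0] at h1
    linarith
  obtain ⟨K, hK1, hgK1, hgK2⟩ : ∃ K : ℕ, 1 ≤ K ∧ L0 + f < g * K ∧ g * K ≤ L0 + f + g := by
    refine ⟨(L0 + f) / g + 1, Nat.le_add_left _ _, ?_, ?_⟩
    · have h1 := Nat.div_add_mod (L0 + f) g
      have h2 := Nat.mod_lt (L0 + f) (show 0 < g by omega)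
      rw [mul_add, mul_one]
      omega
    · have h1 := Nat.mul_div_le (L0 + f) g
      rw [mul_add, mul_one]
      omega
  obtain ⟨L, hm⟩ : ∃ L, g * K = L + f := ⟨g * K - f, by omega⟩
  have hLL0 : (L0 : ℝ) ≤ L := by exact_mod_cast (by omega : L0 ≤ L)
  have hLb' : D + ρ * (b' + t) ≤ b' * L :=
    hL01.trans (mul_le_mul_of_nonneg_left hLL0 hb'0.le)
  have hL0r : (0 : ℝ) ≤ L := by positivity
  have hLb : D ≤ L * b := by
    have h1 : b' * L ≤ L * b := by
      rw [hb', mul_comm (L : ℝ)]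
      exact mul_le_mul_of_nonneg_right (by linarith) hL0r
    linarith
  have hLpos : (0 : ℝ) < L := by
    by_contra hcon
    have : (L : ℝ) = 0 := le_antisymm (by linarith) hL0r
    rw [this] at hLb
    linarith
  have h24 : 2 * B + 3 * b ≤ gap / 2 := by linarith
  have hfL' : 2 * D * (f : ℝ) ≤ (D + 2 * p) * L := by
    have h1 : 2 * ((f : ℝ) * b) ≤ D + 2 * p := by
      rw [hgap] at h24
      linarith
    have h3 : (2 * D * (f : ℝ)) * b ≤ ((D + 2 * p) * L) * b := by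
      have e1 : D * (2 * ((f : ℝ) * b)) ≤ D * (D + 2 * p) :=
        mul_le_mul_of_nonneg_left h1 (by linarith)
      have e2 : (D + 2 * p) * D ≤ (D + 2 * p) * (L * b) :=
        mul_le_mul_of_nonneg_left hLb (by linarith)
      linarith
    exact le_of_mul_le_mul_right h3 hbr
  have hLf : (L : ℝ) * gap ≤ 2 * D * (L - f) := by
    rw [hgap]
    linarith
  have hfLr : (f : ℝ) < L := by
    have h1 : 0 < (L : ℝ) * gap := mul_pos hLpos hgap0
    have h2 : 0 < (2 * D) * ((L : ℝ) - f) := by linarith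
    have h3 := (pos_iff_pos_of_mul_pos h2).1 (by linarith)
    linarith
  have hρL : (L : ℝ) ≤ ρ * (L - f) := by
    rw [hρ, div_mul_eq_mul_div, le_div_iff₀ hgap0]
    exact hLf
  have hN : (((g * K) * b : ℕ) : ℝ) ≤ D + 2 * p + ρ * (33 * s + 8 * r + 25 / 6 * B) := by
    have h2 : ((g * K : ℕ) : ℝ) ≤ L0 + f + g := by exact_mod_cast hgK2
    have h3 : (b : ℝ) / b' ≤ 1 + 8 / s := by
      rw [div_le_iff₀ hb'0]
      have e1 : s / 2 ≤ b' := by rw [hb']; linarith
      have e2 : 4 ≤ 8 / s * b' := by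
        rw [div_mul_eq_mul_div, le_div_iff₀ (by linarith)]
        linarith
      have e3 : (b : ℝ) = b' + 4 := by rw [hb']; ring
      rw [e3]
      linarith
    have h4 : (b : ℝ) / b' ≤ 2 := by
      refine h3.trans ?_
      have : 8 / s ≤ 1 := by rw [div_le_one (by linarith)]; linarith
      linarith
    have h5 : (D + ρ * (b' + t)) / b' * b ≤ D + 8 * s + 2 * (ρ * (b' + t)) := by
      have e1 : (D + ρ * (b' + t)) / b' * b = D * (b / b') + (ρ * (b' + t)) * (b / b') := by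
        ring
      have e2 : D * (b / b') ≤ D * (1 + 8 / s) := mul_le_mul_of_nonneg_left h3 (by linarith)
      have e3 : D * (1 + 8 / s) = D + 8 * s := by
        rw [← hs2]
        have : s ≠ 0 := by linarith
        field_simp
      have e4 : (ρ * (b' + t)) * (b / b') ≤ (ρ * (b' + t)) * 2 :=
        mul_le_mul_of_nonneg_left h4 hρbt
      rw [e1]
      linarith
    have h6 : (((g * K) * b : ℕ) : ℝ) ≤ (L0 + f + g) * b := by
      rw [Nat.cast_mul]
      exact mul_le_mul_of_nonneg_right h2 hbr.le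
    have h7 : (L0 : ℝ) * b ≤ ((D + ρ * (b' + t)) / b' + 1) * b :=
      mul_le_mul_of_nonneg_right hL02.le hbr.le
    have h8 : (b : ℝ) ≤ 2 * s := by linarith
    have h9 : (((g * K) * b : ℕ) : ℝ) ≤ D + 2 * p + 8 * s + 2 * (ρ * (b' + t)) + 5 * b + 3 * B := by
      have e1 : ((L0 : ℝ) + f + g) * b = L0 * b + f * b + g * b := by ring
      rw [e1] at h6
      linarith
    have h10 : ρ * (b' + t) ≤ ρ * (2 * s + t) :=
      mul_le_mul_of_nonneg_left (by rw [hb']; linarith) (by linarith)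
    have h12 : 2 * (9 * s + 3 / 2 * B) ≤ ρ * (9 * s + 3 / 2 * B) :=
      mul_le_mul_of_nonneg_right hρ2 (by positivity)
    have e1 : ρ * (33 * s + 8 * r + 25 / 6 * B) =
        2 * (ρ * (2 * s + t)) + ρ * (9 * s + 3 / 2 * B) := by rw [ht]; ring
    rw [e1]
    linarith
  rw [hρ] at hN hρL hLb'
  rw [ht, hb'] at hLb'
  exact ⟨b, g, f, K, L, hbs, hbs1, hg1, hgb1, hgb2, hf1, hfb1, hK1, hm, by exact_mod_cast hfLr,
    hfb2r, hLb, hρL, hLb', hN⟩

theorem core {V : Type} [Fintype V] (G : SimpleGraph V) [DecidableRel G.Adj] (D p : ℕ)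
    (hdeg : ∀ v, G.degree v ≤ D) (hp : 1 ≤ p) (s r l F gap : ℝ) (hl : Real.log D = l)
    (hl0 : 0 ≤ l) (hl2s : l ≤ 2 * s) (hs75 : 75 < s) (hs2 : s * s = D) (hr0 : 0 ≤ r)
    (hr2 : r * r = p * l) (hF0 : 0 ≤ F) (hF : F * (p : ℝ) ^ 2 = (D : ℝ) ^ 2 * l)
    (hgap : gap = D - 2 * p) (hcase : 75 * (s + r + F) < gap) :
    ∃ N : ℕ, (N : ℝ) ≤ D + 2 * p + 75 * (D / gap) * (s + r + F) ∧ CircLab G p N := by
  have hPr : (1 : ℝ) ≤ p := by exact_mod_cast hp
  have hgap0 : 0 < gap := by linarith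
  have hgapD : gap ≤ D := by linarith
  have hDpos : (0 : ℝ) < D := by linarith
  have hD1 : 1 ≤ D := by exact_mod_cast hDpos
  obtain ⟨B, hB⟩ : ∃ B : ℝ, B = 9 * F := ⟨_, rfl⟩
  have hB0 : 0 ≤ B := by rw [hB]; positivity
  obtain ⟨b, g, f, K, L, hbs, hbs1, hg1, hgb1, hgb2, hf1, hfb1, hK1, hm, hfL, hfb2r, hLb, hρL,
    hLb', hN⟩ := choose_nat D s r B gap p hs75 hs2 hr0 hB0 hgap (by linarith) hp
  obtain ⟨ρ, hρ⟩ : ∃ ρ : ℝ, ρ = 2 * D / gap := ⟨_, rfl⟩
  obtain ⟨t, ht⟩ : ∃ t : ℝ, t = 4 * r + 4 / 3 * B + 10 * s := ⟨_, rfl⟩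
  rw [← hρ] at hρL hLb' hN
  rw [← ht] at hLb'
  have hρ2 : 2 ≤ ρ := by
    rw [hρ, le_div_iff₀ hgap0]
    linarith
  have ht0 : 0 ≤ t := by rw [ht]; positivity
  have hbr : (0 : ℝ) < b := by linarith
  have hLpos : (0 : ℝ) < L := by
    have : (f : ℝ) < L := by exact_mod_cast hfL
    have h2 : (0 : ℝ) ≤ f := by positivity
    linarith
  have hN' : (((g * K) * b : ℕ) : ℝ) ≤ D + 2 * p + 75 * (D / gap) * (s + r + F) := by
    refine hN.trans ?_
    have h13 : 75 * (D / gap) * (s + r + F) = ρ * (75 / 2 * (s + r + F)) := by rw [hρ]; ring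
    have h14 : ρ * (33 * s + 8 * r + 25 / 6 * B) ≤ ρ * (75 / 2 * (s + r + F)) := by
      refine mul_le_mul_of_nonneg_left ?_ (by linarith)
      rw [hB]
      linarith
    rw [h13]
    linarith
  have hbnd : 75 * (D / gap) * (s + r + F) < D := by
    have e1 : 75 * (D / gap) * (s + r + F) = D * ((75 * (s + r + F)) / gap) := by ring
    rw [e1]
    have e2 : (75 * (s + r + F)) / gap < 1 := by rwa [div_lt_one hgap0]
    have e3 := mul_lt_mul_of_pos_left e2 hDpos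
    linarith
  have hmb : ((g * K : ℕ) : ℝ) * b ≤ 3 * D := by
    rw [← Nat.cast_mul]; linarith
  have hms : ((g * K : ℕ) : ℝ) ≤ 3 * s := by
    have h1 : ((g * K : ℕ) : ℝ) * s ≤ (3 * s) * s := by
      have : ((g * K : ℕ) : ℝ) * s ≤ ((g * K : ℕ) : ℝ) * b :=
        mul_le_mul_of_nonneg_left hbs (by positivity)
      have e : (3 * s) * s = 3 * D := by rw [← hs2]; ring
      linarith
    exact le_of_mul_le_mul_right h1 (by linarith)
  have : NeZero (g * K) := ⟨by positivity⟩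
  refine ⟨(g * K) * b, hN', ?_⟩
  have hKr : (0 : ℝ) < K := by exact_mod_cast hK1
  have hb1 : 1 ≤ b := by exact_mod_cast hbr
  refine param G D hD1 hdeg (g * K) L f g K b p hm rfl hg1 hK1 hb1 hp
    hf1 hfL ?_ (2 * p / D) t (Real.exp (-(4 * l))) (by positivity) ?_ ht0 (Real.exp_pos _).le
    ?_ ?_ ?_ ?_ ?_
  · have : (2 * g - 1) * b ≤ 2 * g * b := Nat.mul_le_mul_right _ (by omega)
    omega
  · rw [div_le_one hDpos]
    linarith
  · apply Real.exp_le_exp.2
    have h1 : 3 * (K * D * l) ≤ (p : ℝ) ^ 2 := by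
      have e1 : (K : ℝ) * B ≤ 3 * D := by
        have e2 : (K : ℝ) * B ≤ K * (g * b) := mul_le_mul_of_nonneg_left hgb1 hKr.le
        have e3 : (K : ℝ) * (g * b) = ((g * K : ℕ) : ℝ) * b := by push_cast; ring
        linarith
      have e5 : (K : ℝ) * (9 * (D ^ 2 * l)) ≤ 3 * D * (p : ℝ) ^ 2 := by
        have := mul_le_mul_of_nonneg_right e1 (sq_nonneg (p : ℝ))
        have e6 : (K : ℝ) * B * (p : ℝ) ^ 2 = K * (9 * (D ^ 2 * l)) := by
          rw [← hF, hB]; ring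
        linarith
      have e6 : (3 * (D : ℝ)) * (3 * (K * D * l)) ≤ (3 * D) * (p : ℝ) ^ 2 := by linarith
      exact le_of_mul_le_mul_left e6 (by positivity)
    have h2 : (2 * (p : ℝ) / D) ^ 2 * (D * (1 / K)) / 3 = 4 * (p : ℝ) ^ 2 / (3 * (K * D)) := by
      field_simp
      ring
    rw [h2, neg_le_neg_iff, le_div_iff₀ (by positivity)]
    linarith
  · apply Real.exp_le_exp.2
    have hA : D * ((f : ℝ) / L) ≤ f * b := by
      rw [← mul_div_assoc, div_le_iff₀ hLpos]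
      have : (f : ℝ) * D ≤ f * (L * b) := mul_le_mul_of_nonneg_left hLb (by positivity)
      linarith
    have hfpos : (0 : ℝ) < f := by exact_mod_cast hf1
    have hpos : 0 < 2 * (D * ((f : ℝ) / L)) := by positivity
    rw [neg_le_neg_iff, le_div_iff₀ hpos]
    have h1 : 9 * l ≤ B := by
      rw [hB]
      have h5 : l * (p : ℝ) ^ 2 ≤ F * (p : ℝ) ^ 2 := by
        rw [hF]
        have : (p : ℝ) ^ 2 ≤ (D : ℝ) ^ 2 := pow_le_pow_left₀ (by linarith) (by linarith) 2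
        have := mul_le_mul_of_nonneg_left this hl0
        linarith
      have h6 := le_of_mul_le_mul_right h5 (by positivity)
      linarith
    have h2 : 8 * l * ((f : ℝ) * b) ≤ t ^ 2 := by
      have e1 : 8 * l * ((f : ℝ) * b) ≤ 8 * l * (2 * p + 2 * B + 6 * s) :=
        mul_le_mul_of_nonneg_left (by linarith) (by positivity)
      have e2 : 16 * (p * l) + 16 / 9 * B ^ 2 + 100 * D ≤ t ^ 2 := by
        rw [← hr2, ← hs2, ht]
        have q1 : 0 ≤ r * B := mul_nonneg hr0 hB0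
        have q2 : 0 ≤ r * s := mul_nonneg hr0 (by linarith)
        have q3 : 0 ≤ B * s := mul_nonneg hB0 (by linarith)
        have q4 : (4 * r + 4 / 3 * B + 10 * s) ^ 2 = 16 * (r * r) + 16 / 9 * B ^ 2 +
            100 * (s * s) + 32 / 3 * (r * B) + 80 * (r * s) + 80 / 3 * (B * s) := by ring
        rw [q4]
        linarith
      have e3 : 9 * (l * B) ≤ B ^ 2 := by
        have := mul_le_mul_of_nonneg_right h1 hB0
        linarith
      have e4 : l * s ≤ 2 * D := by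
        have := mul_le_mul_of_nonneg_right hl2s (show 0 ≤ s by linarith)
        rw [← hs2]
        linarith
      linarith
    have h3 : 4 * l * (2 * (D * ((f : ℝ) / L))) ≤ 8 * l * ((f : ℝ) * b) := by
      have := mul_le_mul_of_nonneg_left hA (show 0 ≤ 8 * l by positivity)
      linarith
    linarith
  · have h1 : Real.exp (-(4 * l)) = ((D : ℝ) ^ 4)⁻¹ := by
      rw [Real.exp_neg]
      congr 1
      rw [← hl, show (4 : ℝ) * Real.log D = ((4 : ℕ) : ℝ) * Real.log D by norm_num,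
        ← Real.log_pow, Real.exp_log (by positivity)]
    have h2 : ((K + (g * K) * (g * K) : ℕ) : ℝ) ≤ 18 * D := by
      have e1 : K ≤ (g * K) * (g * K) := by
        have a1 : K ≤ g * K := Nat.le_mul_of_pos_left K (by omega)
        have a2 : g * K ≤ (g * K) * (g * K) := Nat.le_mul_self _
        omega
      have e2 : ((K + (g * K) * (g * K) : ℕ) : ℝ) ≤ 2 * (((g * K : ℕ) : ℝ) * ((g * K : ℕ) : ℝ)) := by
        have : ((K : ℕ) : ℝ) ≤ (((g * K) * (g * K) : ℕ) : ℝ) := by exact_mod_cast e1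
        rw [Nat.cast_add, Nat.cast_mul (g * K) (g * K)]
        rw [Nat.cast_mul (g * K) (g * K)] at this
        linarith
      have e3 : ((g * K : ℕ) : ℝ) * ((g * K : ℕ) : ℝ) ≤ (3 * s) * (3 * s) :=
        mul_le_mul hms hms (by positivity) (by positivity)
      have e4 : (3 * s) * (3 * s) = 9 * D := by rw [← hs2]; ring
      linarith
    rw [h1]
    have h3 : (0 : ℝ) ≤ ((D : ℝ) ^ 4)⁻¹ := by positivity
    have h72 : (72 : ℝ) ≤ D := by
      have : 75 * s < s * s := mul_lt_mul_of_pos_right hs75 (by linarith)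
      linarith
    calc 4 * (((K + (g * K) * (g * K) : ℕ) : ℝ) * ((D : ℝ) ^ 4)⁻¹) * ((D * D : ℕ) : ℝ)
        ≤ 4 * ((18 * D) * ((D : ℝ) ^ 4)⁻¹) * ((D * D : ℕ) : ℝ) := by gcongr
      _ = 72 / D := by push_cast; field_simp; ring
      _ ≤ 1 := by rw [div_le_one hDpos]; exact h72
  · have h1 : (1 + 2 * (p : ℝ) / D) * (D * (1 / K)) = (D + 2 * p) / K := by
      field_simp
    rw [h1, div_le_iff₀ hKr]
    have h2 : (g : ℝ) * b * K = L * b + f * b := by
      have : ((g * K : ℕ) : ℝ) = L + f := by rw [hm]; push_cast; ring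
      rw [Nat.cast_mul] at this
      calc (g : ℝ) * b * K = (g * K) * b := by ring
        _ = (L + f) * b := by rw [this]
        _ = _ := by ring
    rw [h2]
    have h3 : ((2 * g * b + 2 * p : ℕ) : ℝ) ≤ ((f * b : ℕ) : ℝ) := by exact_mod_cast hfb1
    push_cast at h3
    have h4 : 0 ≤ (g : ℝ) * b := by positivity
    linarith
  · have hfLr : (f : ℝ) + 1 ≤ L := by exact_mod_cast hfL
    have hf0 : (1 : ℝ) ≤ f := by exact_mod_cast hf1
    have hQ : 0 < (L : ℝ) * (L - f) - (f - 1) := by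
      have h2 : (L : ℝ) * 1 ≤ L * (L - f) := mul_le_mul_of_nonneg_left (by linarith) hLpos.le
      linarith
    have hkey : (D : ℝ) * (L - f) + L * t ≤ ((b : ℝ) - 4) * (L * (L - f) - (f - 1)) := by
      have h1 : (D + ρ * (((b : ℝ) - 4) + t)) * (L - f) ≤ (((b : ℝ) - 4) * L) * (L - f) :=
        mul_le_mul_of_nonneg_right hLb' (by linarith)
      have h2 : L * (((b : ℝ) - 4) + t) ≤ (ρ * (L - f)) * (((b : ℝ) - 4) + t) :=
        mul_le_mul_of_nonneg_right hρL (by linarith)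
      have h3 : ((b : ℝ) - 4) * ((f : ℝ) - 1) ≤ ((b : ℝ) - 4) * L :=
        mul_le_mul_of_nonneg_left (by linarith) (by linarith)
      linarith
    have h4 : ((D : ℝ) * (L - f) + L * t) / (L * (L - f) - (f - 1)) ≤ (b : ℝ) - 4 := by
      rw [div_le_iff₀ hQ]
      exact hkey
    linarith

theorem main2 {V : Type} [Fintype V] (G : SimpleGraph V) [DecidableRel G.Adj] (p : ℕ)
    (hp : 1 ≤ p) (h2p : 2 * p < G.maxDegree) :
    ∃ N : ℕ, (N : ℝ) ≤ G.maxDegree + 2 * p +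
      75 * (G.maxDegree / (G.maxDegree - 2 * p)) * err2 G.maxDegree p ∧ CircLab G p N := by
  have hPr : (1 : ℝ) ≤ p := by exact_mod_cast hp
  have hPD : 2 * (p : ℝ) < G.maxDegree := by exact_mod_cast h2p
  have hDr : (1 : ℝ) ≤ G.maxDegree := by linarith
  have hl0 : 0 ≤ Real.log G.maxDegree := Real.log_nonneg hDr
  have hs0 : 0 ≤ Real.sqrt G.maxDegree := Real.sqrt_nonneg _
  have hr0 : 0 ≤ Real.sqrt (p * Real.log G.maxDegree) := Real.sqrt_nonneg _
  have hs2 : Real.sqrt G.maxDegree * Real.sqrt G.maxDegree = G.maxDegree :=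
    Real.mul_self_sqrt (by linarith)
  have hgap0 : 0 < (G.maxDegree : ℝ) - 2 * p := by linarith
  have hF0 : 0 ≤ (G.maxDegree : ℝ) ^ 2 * Real.log G.maxDegree / (p : ℝ) ^ 2 := by positivity
  by_cases hcase : (G.maxDegree : ℝ) - 2 * p ≤ 75 * err2 G.maxDegree p
  · refine ⟨2 * G.maxDegree + 2 * p, ?_, trivial_bound G p hp⟩
    have h1 : (G.maxDegree : ℝ) ≤
        75 * (G.maxDegree / (G.maxDegree - 2 * p)) * err2 G.maxDegree p := by
      have e1 : 75 * ((G.maxDegree : ℝ) / (G.maxDegree - 2 * p)) * err2 G.maxDegree p =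
          G.maxDegree * ((75 * err2 G.maxDegree p) / (G.maxDegree - 2 * p)) := by ring
      rw [e1]
      have e2 : 1 ≤ (75 * err2 G.maxDegree p) / ((G.maxDegree : ℝ) - 2 * p) := by
        rwa [one_le_div hgap0]
      have e3 := mul_le_mul_of_nonneg_left e2 (show 0 ≤ (G.maxDegree : ℝ) by linarith)
      linarith
    push_cast
    linarith
  push Not at hcase
  unfold err2 at hcase ⊢
  have hsE : 75 * Real.sqrt G.maxDegree < Real.sqrt G.maxDegree * Real.sqrt G.maxDegree := by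
    rw [hs2]; linarith
  have hs75 : 75 < Real.sqrt G.maxDegree := by
    by_contra hcon
    push Not at hcon
    have := mul_le_mul_of_nonneg_right hcon hs0
    linarith
  have hl2s : Real.log G.maxDegree ≤ 2 * Real.sqrt G.maxDegree := by
    have h1 : Real.log G.maxDegree = 2 * Real.log (Real.sqrt G.maxDegree) := by
      conv_lhs => rw [← hs2]
      rw [Real.log_mul (by linarith) (by linarith)]
      ring
    have h2 := Real.log_le_sub_one_of_pos (show 0 < Real.sqrt G.maxDegree by linarith)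
    linarith
  exact core G G.maxDegree p (fun v => G.degree_le_maxDegree v) hp _ _ _ _ _ rfl hl0 hl2s hs75
    hs2 hr0 (Real.mul_self_sqrt (by positivity)) hF0 (by field_simp) rfl hcase

end Pool.Agent.U122.HY
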