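import Mathlib
import Pool.Agent.H167R2.BFLin

/-!
# Rounding with thresholds

A point of the unit cube can be rounded to a vertex of the cube so that the sum over the `l`-th set
changes by less than `thr l - 1`, if the sets with at least `thr l` elements in a nonempty set `F`
are always fewer than the elements of `F`.
-/

set_option autoImplicit false

namespace Pool.Agent.U122.HY

open Finset

variable {A Λ : Type*} [Fintype A] [DecidableEq A] [Fintype Λ]

/-- the sum over a set as a linear functional -/
noncomputable def sumF (S : Finset A) : (A → ℝ) →ₗ[ℝ] ℝ :=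
  ∑ j ∈ S, LinearMap.proj (R := ℝ) (φ := fun _ : A => ℝ) j

theorem sumF_apply (S : Finset A) (z : A → ℝ) : sumF S z = ∑ j ∈ S, z j := by
  unfold sumF
  simp [LinearMap.sum_apply]

/-- the floating coordinates -/
noncomputable def flo (x : A → ℝ) : Finset A := by
  classical exact univ.filter (fun j => x j ≠ 0 ∧ x j ≠ 1)

theorem mem_flo (x : A → ℝ) (j : A) : j ∈ flo x ↔ x j ≠ 0 ∧ x j ≠ 1 := by
  simp [flo]

theorem round (S : Λ → Finset A) (thr : Λ → ℕ)
    (hF : ∀ F : Finset A, F.Nonempty →
      (univ.filter (fun l => thr l ≤ (S l ∩ F).card)).card < F.card) :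
    ∀ (N : ℕ) (x : A → ℝ), (∀ j, 0 ≤ x j ∧ x j ≤ 1) → (flo x).card ≤ N →
      ∃ y : A → ℝ, (∀ j, y j = 0 ∨ y j = 1) ∧ (∀ j, (x j = 0 ∨ x j = 1) → y j = x j) ∧
        ∀ l, 2 ≤ thr l → |∑ j ∈ S l, (y j - x j)| < (thr l : ℝ) - 1 := by
  classical
  intro N
  induction N with
  | zero =>
    intro x hx hc
    have h0 : ∀ j, x j = 0 ∨ x j = 1 := by
      intro j
      by_contra h
      push Not at h
      have : j ∈ flo x := (mem_flo x j).2 h
      have := card_pos.2 ⟨j, this⟩
      omega
    refine ⟨x, h0, fun j _ => rfl, fun l hl => ?_⟩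
    have hl' : (2 : ℝ) ≤ thr l := by exact_mod_cast hl
    simp only [sub_self, sum_const_zero, abs_zero]
    linarith
  | succ N ih =>
    intro x hx hc
    by_cases hcN : (flo x).card ≤ N
    · exact ih x hx hcN
    have hFpos : (flo x).Nonempty := by
      rw [← card_pos]
      omega
    set F := flo x with hFdef
    set EJ := univ.filter (fun l => thr l ≤ (S l ∩ F).card) with hEJ
    have hcard : EJ.card < F.card := hF F hFpos
    obtain ⟨z, hz0, ⟨v, hvF, hvz⟩, hzE⟩ := H167BF.exists_direction F EJ (fun l => sumF (S l)) hcard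
    obtain ⟨s, hs0, hs1, ⟨⟨j0, b0⟩, hk0, hk1, hk2⟩⟩ := H167BF.ray_lemma
      (F ×ˢ (univ : Finset Bool)) (fun k => if k.2 then x k.1 else -x k.1)
      (fun k => if k.2 then z k.1 else -z k.1) (fun k => if k.2 then 1 else 0)
      (by
        rintro ⟨j, b⟩ _
        have h1 := hx j
        cases b
        · simp only [Bool.false_eq_true, if_false]; linarith [h1.1]
        · simp only [if_true]; exact h1.2)
      (by
        rcases lt_or_gt_of_ne hvz with h | h
        · exact ⟨(v, false), mem_product.2 ⟨hvF, mem_univ _⟩, by simpa using h⟩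
        · exact ⟨(v, true), mem_product.2 ⟨hvF, mem_univ _⟩, by simpa using h⟩)
    set x' : A → ℝ := fun j => x j + s * z j with hx'
    have hoff : ∀ j, j ∉ F → x' j = x j := by
      intro j hj
      simp [hx', hz0 j hj]
    have hx'1 : ∀ j, 0 ≤ x' j ∧ x' j ≤ 1 := by
      intro j
      by_cases hj : j ∈ F
      · have h1 := hs1 (j, true) (mem_product.2 ⟨hj, mem_univ _⟩)
        have h2 := hs1 (j, false) (mem_product.2 ⟨hj, mem_univ _⟩)
        simp only [if_true] at h1
        simp only [Bool.false_eq_true, if_false] at h2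
        constructor
        · simp only [hx']; linarith
        · simp only [hx']; exact h1
      · rw [hoff j hj]; exact hx j
    have hj0F : j0 ∈ F := (mem_product.1 hk0).1
    have hj0 : x' j0 = 0 ∨ x' j0 = 1 := by
      simp only [hx']
      cases b0
      · simp only [Bool.false_eq_true, if_false] at hk2
        left
        linarith
      · simp only [if_true] at hk2
        right
        exact hk2
    have hsub : flo x' ⊆ F.erase j0 := by
      intro j hj
      have hj1 := (mem_flo x' j).1 hj
      refine mem_erase.2 ⟨?_, ?_⟩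
      · rintro rfl
        rcases hj0 with h | h
        · exact hj1.1 h
        · exact hj1.2 h
      · by_contra hjF
        rw [hoff j hjF] at hj1
        exact hjF ((mem_flo x j).2 hj1)
    have hcard' : (flo x').card ≤ N := by
      have h1 := card_le_card hsub
      rw [card_erase_of_mem hj0F] at h1
      omega
    obtain ⟨y, hy1, hy2, hy3⟩ := ih x' hx'1 hcard'
    have hoffF : ∀ j, j ∉ F → x j = 0 ∨ x j = 1 := by
      intro j hj
      by_contra h
      push Not at h
      exact hj ((mem_flo x j).2 h)
    have hyx : ∀ j, (x j = 0 ∨ x j = 1) → y j = x j := by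
      intro j hj
      have hjF : j ∉ F := by
        intro h
        have := (mem_flo x j).1 h
        tauto
      have h1 := hy2 j (by rw [hoff j hjF]; exact hj)
      rw [h1, hoff j hjF]
    refine ⟨y, hy1, hyx, fun l hl => ?_⟩
    have hl' : (2 : ℝ) ≤ thr l := by exact_mod_cast hl
    by_cases hi : l ∈ EJ
    · have h1 := hzE l hi
      rw [sumF_apply] at h1
      have h2 : ∑ j ∈ S l, (y j - x j) = ∑ j ∈ S l, (y j - x' j) := by
        have h3 : ∑ j ∈ S l, (y j - x j) = ∑ j ∈ S l, (y j - x' j) + s * ∑ j ∈ S l, z j := by
          rw [Finset.mul_sum, ← Finset.sum_add_distrib]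
          refine sum_congr rfl fun j _ => ?_
          simp only [hx']; ring
        rw [h3, h1]; ring
      rw [h2]
      exact hy3 l hl
    · have h1 : (S l ∩ F).card + 1 ≤ thr l := by
        by_contra h
        push Not at h
        exact hi (by simp only [hEJ, mem_filter, mem_univ, true_and]; omega)
      have h2 : ∑ j ∈ S l, (y j - x j) = ∑ j ∈ S l ∩ F, (y j - x j) := by
        symm
        apply Finset.sum_subset inter_subset_left
        intro j hj hj'
        have hjF : j ∉ F := fun h => hj' (mem_inter.2 ⟨hj, h⟩)
        rw [hyx j (hoffF j hjF)]; ring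
      rw [h2]
      rcases (S l ∩ F).eq_empty_or_nonempty with h0 | h0
      · rw [h0]
        simp only [sum_empty, abs_zero]
        linarith
      · calc |∑ j ∈ S l ∩ F, (y j - x j)| ≤ ∑ j ∈ S l ∩ F, |y j - x j| :=
              Finset.abs_sum_le_sum_abs _ _
          _ < ∑ j ∈ S l ∩ F, (1 : ℝ) := by
              refine sum_lt_sum_of_nonempty h0 fun j hj => ?_
              have h3 := hx j
              have h4 := (mem_flo x j).1 (mem_inter.1 hj).2
              have h5 : 0 < x j := lt_of_le_of_ne h3.1 (Ne.symm h4.1)
              have h6 : x j < 1 := lt_of_le_of_ne h3.2 h4.2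
              rcases hy1 j with h | h <;> rw [h, abs_lt] <;> constructor <;> linarith
          _ = ((S l ∩ F).card : ℝ) := by rw [sum_const, nsmul_eq_mul, mul_one]
          _ ≤ (thr l : ℝ) - 1 := by
              have : (((S l ∩ F).card + 1 : ℕ) : ℝ) ≤ thr l := by exact_mod_cast h1
              push_cast at this
              linarith

end Pool.Agent.U122.HY
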